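import Pool.Agent.W_448tw_h76.TwC
import Pool.Agent.W_448fw_h5.FwH

/-!
Component level forms: truncated data with twins, second thresholds.
-/

namespace Pool.Agent.GaussPoset

set_option linter.unusedSectionVars false

open Polynomial Finset

universe u

variable {P : Type u} [Fintype P] [PartialOrder P] [DecidableEq P]
variable {ι : Type*}

/-- `D` contains an element of each twin pair -/
def Broken (Tw : Finset (P × P)) (D : Finset P) : Prop := ∀ t ∈ Tw, t.1 ∈ D ∨ t.2 ∈ D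

/-- component data with twins: cleanness only for the lower sets which break all twin pairs -/
structure CompDataT (R : Finset P) (cp : P → ι) (k : ι) (i b : ℕ) (θ : P → ℕ) (B : P → Prop)
    (Tw : Finset (P × P)) : Prop where
  clean : ∀ D, Good i R B D → Broken Tw D → ∀ _ : DecidableEq ι,
    (1 + X : Polynomial (PowerSeries ℤ)) ^ b ∣ W {x : {x : P // x ∉ D} // cp (x : P) = k} i
  lev : ∀ x, x ∉ R → cp x = k → 1 ≤ θ x → i < lev x
  base : ∀ x, x ∉ R → cp x = k → 1 ≤ θ x → ∀ y ≤ x, y ∉ R → ¬ B y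
  step : ∀ x, x ∉ R → cp x = k → 1 ≤ θ x → ∀ y ≤ x, y ∉ R → ∀ x', x' ∉ R → y ⋖ x' →
    ¬ x' ≤ x → θ x ≤ θ x' + 1
  le : ∀ x, x ∉ R → cp x = k → θ x ≤ Pool.Agent.GaussPoset.lev x - i

lemma CompData.toT {R : Finset P} {cp : P → ι} {k : ι} {i b : ℕ} {θ : P → ℕ} {B : P → Prop}
    (H : CompData R cp k i b θ B) (Tw : Finset (P × P)) : CompDataT R cp k i b θ B Tw where
  clean := fun D hD _ => H.clean D hD
  lev := H.lev
  base := H.base
  step := H.step
  le := H.le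

/-- bounded cleanness with frozen labels on `R` from component data with twins -/
theorem labels_of_compT [Fintype ι] [DecidableEq ι] {i : ℕ} {R : Finset P}
    (hR : ∀ x y, x ≤ y → y ∈ R → x ∈ R) (hRlev : ∀ x ∈ R, i < lev x)
    (cp : P → ι) (hcp : ∀ x y, x ≤ y → x ∉ R → cp x = cp y) (b : ι → ℕ) (θ : P → ℕ)
    (B : P → Prop) (hBR : ∀ x ∈ R, ¬ B x) (Tw : Finset (P × P)) (n0 : ℕ)
    (H : ∀ k, CompDataT R cp k i (b k) θ B Tw)
    (htw : ∀ t ∈ Tw, TwinPair i θ n0 t.1 t.2) (hmin : ∀ t ∈ Tw, ∀ y < t.2, y ∈ R)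
    (htR : ∀ t ∈ Tw, t.1 ∉ R ∧ t.2 ∉ R)
    (g : P → ℕ) (hg0 : ∀ x, x ∉ R → g x = 0)
    (hg : ∀ y ∈ R, ∀ x, x ∉ R → y ⋖ x → g y ≤ θ x) (n : ℕ) (hn : n < n0) :
    (1 + X : ℤ[X]) ^ (∑ k, b k) ∣ ZB i R g 0 n := by
  classical
  let θ' : P → ℕ := fun x => if x ∈ R then 0 else θ x
  have hθ' : ∀ x, x ∉ R → θ' x = θ x := fun x hx => if_neg hx
  have hθ0 : ∀ x, 1 ≤ θ' x → x ∉ R := by
    intro x hx hxR
    have : θ' x = 0 := if_pos hxR
    omega
  have hlow : ∀ D ∈ {D | Good i R B D}, ∀ x y, x ≤ y → y ∈ D → x ∈ D := fun D hD => hD.1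
  have hlev : ∀ D ∈ {D | Good i R B D}, ∀ x ∈ D, i < lev x := fun D hD => hD.2.2.1
  have hRR : R ∈ {D | Good i R B D} := ⟨hR, Subset.refl R, hRlev, hBR⟩
  refine dvd_ZB_labels_lt i _ n0 {D | Good i R B D} θ' hlow hlev ?_ hRR g hg0
    (fun y hy x hx hyx => by rw [hθ' x hx]; exact hg y hy x hx hyx) n hn
  refine dvd_ZB_bounds_twins i _ n0 {D | Good i R B D} θ' Tw hlow hlev ?_ ?_ ?_ ?_ ?_ ?_
  · intro x hx
    have hxR := hθ0 x hx
    rw [hθ' x hxR] at hx
    exact (H (cp x)).lev x hxR rfl hx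
  · intro D hD hbr n _
    rw [ZB_off hD.1 hD.2.2.1]
    refine dvd_Z_of_dvd_W ?_ n
    refine dvd_W_prod (fun x : {x : P // x ∉ D} => cp (x : P)) ?_ i b fun k => ?_
    · intro x y hxy
      exact hcp x y hxy fun h => x.2 (hD.2.1 h)
    · exact (H k).clean D hD hbr inferInstance
  · intro D hD x hx hθx
    have hxR := hθ0 x hθx
    rw [hθ' x hxR] at hθx
    have hlx := (H (cp x)).lev x hxR rfl hθx
    refine ⟨?_, hD.2.1.trans subset_union_left, ?_, ?_⟩
    · intro a c hac hc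
      rw [mem_union, mem_dnf] at hc ⊢
      rcases hc with hc | hc
      · exact Or.inl (hD.1 a c hac hc)
      · exact Or.inr (hac.trans hc)
    · intro a ha
      rw [mem_union, mem_dnf] at ha
      rcases ha with ha | ha
      · exact hD.2.2.1 a ha
      · rcases eq_or_lt_of_le ha with h | h
        · rw [h]; exact hlx
        · have := lev_strictAnti h; omega
    · intro a ha
      rw [mem_union, mem_dnf] at ha
      rcases ha with ha | ha
      · exact hD.2.2.2 a ha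
      · by_cases haR : a ∈ R
        · exact hBR a haR
        · exact (H (cp x)).base x hxR rfl hθx a ha haR
  · intro D hD x hx hθx y hyx hyD x' hyx' hx'x
    have hxR := hθ0 x hθx
    have hyR : y ∉ R := fun h => hyD (hD.2.1 h)
    have hx'R : x' ∉ R := fun h => hyR (hR y x' hyx'.1.le h)
    rw [hθ' x hxR] at hθx ⊢
    rw [hθ' x' hx'R]
    exact (H (cp x)).step x hxR rfl hθx y hyx hyR x' hx'R hyx' hx'x
  · intro t ht
    have h1 := htR t ht
    have h2 := htw t ht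
    refine ⟨h2.ne, h2.up, ?_, ?_, ?_, ?_, ?_⟩
    · rw [hθ' _ h1.1]; exact h2.one_le
    · rw [hθ' _ h1.1, hθ' _ h1.2]; exact h2.eq
    · rw [hθ' _ h1.1]; exact h2.le
    · rw [hθ' _ h1.1]; exact h2.costF
    · rw [hθ' _ h1.1]; exact h2.costT
  · intro t ht D hD y hy
    exact hD.2.1 (hmin t ht y hy)

/-- far data, truncated at energies `< n0` -/
structure FarT (P : Type u) [Fintype P] [PartialOrder P] [DecidableEq P] (i : ℕ)
    (R : Finset P) (b : ℕ) (h : P → ℕ) (n0 : ℕ) : Prop where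
  graded : GradedBelow P
  hlev : ∀ x ∈ R, i < lev x
  clean : ∀ g : P → ℕ, (∀ x, x ∉ R → g x = 0) → (∀ z ∈ bdR R, g z < h z) →
    ∀ n < n0, (1 + X : ℤ[X]) ^ b ∣ ZB i R g 0 n
  one_le : ∀ z ∈ bdR R, 1 ≤ h z
  le_lev : ∀ z ∈ bdR R, h z ≤ lev z - i

lemma FarData.toT {i : ℕ} {R : Finset P} {b : ℕ} {h : P → ℕ} (H : FarData P i R b h) (n0 : ℕ) :
    FarT P i R b h n0 where
  graded := H.graded
  hlev := H.hlev
  clean := fun g h1 h2 n _ => H.clean g h1 h2 n
  one_le := H.one_le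
  le_lev := H.le_lev

/-- truncated far data from component data with twins -/
theorem farT_of_compT [Fintype ι] [DecidableEq ι] {i : ℕ} {R : Finset P}
    (hgr : GradedBelow P) (hR : ∀ x y, x ≤ y → y ∈ R → x ∈ R) (hRlev : ∀ x ∈ R, i < lev x)
    (cp : P → ι) (hcp : ∀ x y, x ≤ y → x ∉ R → cp x = cp y) (b : ι → ℕ) (θ : P → ℕ)
    (B : P → Prop) (hBR : ∀ x ∈ R, ¬ B x) (Tw : Finset (P × P)) (n0 : ℕ)
    (H : ∀ k, CompDataT R cp k i (b k) θ B Tw)
    (htw : ∀ t ∈ Tw, TwinPair i θ n0 t.1 t.2) (hmin : ∀ t ∈ Tw, ∀ y < t.2, y ∈ R)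
    (htR : ∀ t ∈ Tw, t.1 ∉ R ∧ t.2 ∉ R) : FarT P i R (∑ k, b k) (hcan R θ) n0 where
  graded := hgr
  hlev := hRlev
  clean := by
    intro g hg0 hg n hn
    refine labels_of_compT hR hRlev cp hcp b θ B hBR Tw n0 H htw hmin htR g hg0 ?_ n hn
    intro y hy x hx hyx
    have h1 : y ∈ bdR R := by
      classical
      exact mem_filter.mpr ⟨hy, x, hx, hyx⟩
    have h2 := hg y h1
    have h3 := hcan_le (θ := θ) hx hyx
    omega
  one_le := by
    intro z hz
    obtain ⟨x, -, -, hx⟩ := hcan_spec (θ := θ) hz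
    omega
  le_lev := by
    classical
    intro z hz
    obtain ⟨x, hxR, hzx, hx⟩ := hcan_spec (θ := θ) hz
    have h1 := hgr.lev_covBy hzx
    have h2 := (H (cp x)).le x hxR rfl
    have h3 := hRlev z (mem_filter.mp hz).1
    omega

/-- the far window theorem, truncated: no pole below the minimal cost -/
theorem FarT.dvd_of_lt {i : ℕ} {R : Finset P} {b : ℕ} {h : P → ℕ} {n0 : ℕ}
    (H : FarT P i R b h n0) {n : ℕ} (hn0 : n < n0) (hn : ∀ z ∈ bdR R, n < cst i h z) :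
    (1 + X : ℤ[X]) ^ b ∣ Z P i n := by
  rw [Z_split i R h n, DG_eq_zero H.hlev hn, add_zero]
  exact dvd_ND H.hlev _ n fun g h1 h2 => H.clean g h1 h2 n hn0

/-- the far window theorem, truncated, leading term -/
theorem FarT.dvd_lead {i : ℕ} {R : Finset P} {b : ℕ} {h : P → ℕ} {n0 : ℕ}
    (H : FarT P i R b h n0) {n : ℕ} (hn0 : n < n0) (hn : ∀ z ∈ bdR R, n ≤ cst i h z) :
    (1 + X : ℤ[X]) ^ b ∣ Z P i n - ∑ z ∈ (bdR R).filter (fun z => cst i h z = n), Lt i h z := by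
  have h1 := far_plus ((1 + X : ℤ[X]) ^ b) ∅ H.graded H.hlev (Finset.empty_subset _)
    (fun g h1 h2 => H.clean g h1 h2 n hn0) (fun z hz _ => ⟨H.one_le z hz, H.le_lev z hz⟩)
    (fun z hz _ => hn z hz) (fun z hz => absurd hz (Finset.notMem_empty z))
  rwa [Finset.sum_empty, zero_add, Finset.sdiff_empty] at h1

/-- FW+, truncated data -/
theorem FarT.plus {i : ℕ} {R : Finset P} {b : ℕ} {h : P → ℕ} {n0 : ℕ}
    (H : FarT P i R b h n0) {n : ℕ} (hn0 : n < n0) (R1 : Finset P) (hR1 : R1 ⊆ bdR R)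
    (hn : ∀ z ∈ bdR R, z ∉ R1 → n ≤ cst i h z)
    (hpair : ∀ z ∈ R1, ∀ z' ∈ bdR R, z' ≠ z → n < ∑ x, max (ez i h z x) (ez i h z' x)) :
    (1 + X : ℤ[X]) ^ b ∣ Z P i n - (∑ z ∈ R1, ZD i z (h z) n +
      ∑ z ∈ (bdR R \ R1).filter (fun z => cst i h z = n), Lt i h z) :=
  far_plus _ R1 H.graded H.hlev hR1 (fun g h1 h2 => H.clean g h1 h2 n hn0)
    (fun z hz _ => ⟨H.one_le z hz, H.le_lev z hz⟩) hn hpair

section Two

variable {R : Finset P} {cp : P → ι} {θ θ' : P → ℕ}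

/-- component `k` is hit beyond the threshold -/
def Hit (R : Finset P) (cp : P → ι) (θ : P → ℕ) (k : ι) (g : P → ℕ) : Prop :=
  ∃ z ∈ R, ∃ x, x ∉ R ∧ z ⋖ x ∧ cp x = k ∧ θ x < g z

/-- two defects -/
def Bad2 (R : Finset P) (cp : P → ι) (θ θ' : P → ℕ) (g : P → ℕ) : Prop :=
  (∃ k, Hit R cp θ' k g) ∨ ∃ k k', k ≠ k' ∧ Hit R cp θ k g ∧ Hit R cp θ k' g

/-- labels with at most one defect -/
lemma clean_of_not_bad2 [Nonempty ι] {i n : ℕ} {p : ℤ[X]}
    (hcl : ∀ k0, ∀ g : P → ℕ, (∀ x, x ∉ R → g x = 0) →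
      (∀ y ∈ R, ∀ x, x ∉ R → y ⋖ x → cp x = k0 → g y ≤ θ' x) →
      (∀ y ∈ R, ∀ x, x ∉ R → y ⋖ x → cp x ≠ k0 → g y ≤ θ x) → p ∣ ZB i R g 0 n)
    (g : P → ℕ) (hg0 : ∀ x, x ∉ R → g x = 0) (hg : ¬ Bad2 R cp θ θ' g) : p ∣ ZB i R g 0 n := by
  classical
  unfold Bad2 at hg
  push Not at hg
  obtain ⟨h1, h2⟩ := hg
  have h3 : ∃ k0, ∀ k, k ≠ k0 → ¬ Hit R cp θ k g := by
    by_cases hex : ∃ k0, Hit R cp θ k0 g
    · obtain ⟨k0, hk0⟩ := hex
      exact ⟨k0, fun k hk hh => h2 k k0 hk hh hk0⟩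
    · push Not at hex
      exact ⟨Classical.arbitrary ι, fun k _ => hex k⟩
  obtain ⟨k0, hk0⟩ := h3
  refine hcl k0 g hg0 ?_ ?_
  · intro y hy x hx hyx _
    by_contra hcon
    exact h1 (cp x) ⟨y, hy, x, hx, hyx, rfl, not_le.mp hcon⟩
  · intro y hy x hx hyx hk
    by_contra hcon
    exact hk0 (cp x) hk ⟨y, hy, x, hx, hyx, rfl, not_le.mp hcon⟩

/-- cost of the label `t` at `z` -/
noncomputable def ct (i t : ℕ) (z : P) : ℕ := cst i (fun _ => t) z

/-- FW2: the double defects -/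
theorem far_two {i n : ℕ} {p : ℤ[X]} (h : P → ℕ) (T : Finset P) (hgr : GradedBelow P)
    (hRlev : ∀ x ∈ R, i < lev x)
    (hcl : ∀ g : P → ℕ, (∀ x, x ∉ R → g x = 0) → ¬ Bad2 R cp θ θ' g → p ∣ ZB i R g 0 n)
    (hF : ∀ z ∈ R, n < ∑ x, (by classical exact if z ≤ x then lev x - i else 0))
    (h2 : ∀ z ∈ R, ∀ x, x ∉ R → z ⋖ x → n < ct i (θ' x + 1) z)
    (hdiff : ∀ z ∈ R, ∀ z' ∈ R, z ≠ z' → ∀ x, x ∉ R → z ⋖ x → ∀ x', x' ∉ R → z' ⋖ x' →
      cp x ≠ cp x' → n < ∑ y, max (ez i (fun _ => θ x + 1) z y) (ez i (fun _ => θ x' + 1) z' y))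
    (hsame : ∀ z ∈ R, ∀ x, x ∉ R → z ⋖ x → ∀ x', x' ∉ R → z ⋖ x' → cp x ≠ cp x' →
      (z ∈ T ∧ h z = max (θ x) (θ x') + 1 ∧ n ≤ cst i h z) ∨ n < ct i (max (θ x) (θ x') + 1) z)
    (hT : ∀ z ∈ T, z ∈ R ∧ h z ≤ lev z - i ∧ ∃ x, x ∉ R ∧ z ⋖ x ∧ ∃ x', x' ∉ R ∧ z ⋖ x' ∧
      cp x ≠ cp x' ∧ h z = max (θ x) (θ x') + 1) :
    p ∣ Z P i n - ∑ z ∈ T.filter (fun z => cst i h z = n), Lt i h z := by
  classical
  have hct : ∀ t z, ct i t z = ∑ x, ez i (fun _ : P => t) z x := fun t z => rfl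
  have hez : ∀ (h : P → ℕ) (z : P), ez i h z = ez i (fun _ => h z) z := fun h z => rfl
  refine far_bad (bad := Bad2 R cp θ θ') h p T hgr ?_ hcl ?_ ?_
  · intro z hz
    obtain ⟨-, h3, x, -, -, x', -, -, -, h4⟩ := hT z hz
    exact ⟨by omega, h3⟩
  · intro z hz _
    obtain ⟨hzR, h3, x, hx, hzx, x', hx', hzx', hk, h4⟩ := hT z hz
    refine Or.inr ⟨cp x, cp x', hk, ⟨z, hzR, x, hx, hzx, rfl, ?_⟩, ⟨z, hzR, x', hx', hzx', rfl, ?_⟩⟩
    · rw [lbl_of hzR, ez_self h3]; omega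
    · rw [lbl_of hzR, ez_self h3]; omega
  · intro e F hV hs hb
    have hle : ∀ z ∈ R, ∀ t, (z ∈ F ∨ t ≤ e z) → ∀ y, ez i (fun _ => t) z y ≤ e y := by
      intro z hz t ht
      exact ez_le (h := fun _ => t) hV (hRlev z hz) ht
    rcases hb with ⟨z, hz, hzF⟩ | ⟨k, z, hz, x, hx, hzx, -, hlt⟩ |
      ⟨k, k', hkk, ⟨z, hz, x, hx, hzx, hcx, hlt⟩, ⟨z', hz', x', hx', hzx', hcx', hlt'⟩⟩
    · exfalso
      have h3 := hF z hz
      have h4 : ∑ x, (if z ≤ x then lev x - i else 0) ≤ ∑ x, e x := by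
        refine Finset.sum_le_sum fun y _ => ?_
        split_ifs with hzy
        · exact sub_le_of_mem hV (hV.1 z y hzy hzF)
        · exact Nat.zero_le _
      omega
    · exfalso
      rw [lbl_of hz] at hlt
      have h3 := h2 z hz x hx hzx
      rw [hct] at h3
      have h4 := Finset.sum_le_sum fun y (_ : y ∈ (univ : Finset P)) =>
        hle z hz (θ' x + 1) (Or.inr hlt) y
      omega
    · rw [lbl_of hz] at hlt
      rw [lbl_of hz'] at hlt'
      have hk : cp x ≠ cp x' := by rw [hcx, hcx']; exact hkk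
      by_cases hzz : z = z'
      · subst hzz
        have h3 : max (θ x) (θ x') + 1 ≤ e z := by omega
        have h4 := hle z hz _ (Or.inr h3)
        rcases hsame z hz x hx hzx x' hx' hzx' hk with ⟨hzT, hh, hn⟩ | h5
        · refine ⟨z, hzT, ?_⟩
          have h6 : ∀ y, ez i h z y ≤ e y := by
            rw [hez h z, hh]; exact h4
          have h7 : ∑ y, ez i h z y = ∑ y, e y := by
            refine le_antisymm (Finset.sum_le_sum fun y _ => h6 y) ?_
            rw [hs]; exact hn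
          funext y
          exact ((Finset.sum_eq_sum_iff_of_le (fun y _ => h6 y)).mp h7 y (mem_univ y)).symm
        · exfalso
          rw [hct] at h5
          have h6 := Finset.sum_le_sum fun y (_ : y ∈ (univ : Finset P)) => h4 y
          omega
      · exfalso
        have h3 := hdiff z hz z' hz' hzz x hx hzx x' hx' hzx' hk
        have h4 := hle z hz (θ x + 1) (Or.inr hlt)
        have h5 := hle z' hz' (θ x' + 1) (Or.inr hlt')
        have h6 := Finset.sum_le_sum fun y (_ : y ∈ (univ : Finset P)) => max_le (h4 y) (h5 y)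
        omega

end Two

section CoordTwins

variable {R R' : Finset P} {cp : P → ι} {k : ι} {S : ℕ × ℕ → Prop} {co : P → ℕ × ℕ}

/-- twins over a natural component: `R ⊆ R'`, the elements of `R' \ R` in the component `k` are
twins of natural elements -/
structure TwOver (R R' : Finset P) (cp : P → ι) (k : ι) (co : P → ℕ × ℕ) (τ : P → P)
    (Tw : Finset (P × P)) : Prop where
  sub : R ⊆ R'
  low : ∀ x y, x ≤ y → y ∈ R → x ∈ R
  off : ∀ x, x ∉ R → x ∈ R' → cp x = k → τ x ∉ R' ∧ cp (τ x) = k ∧ co (τ x) = co x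
  up : ∀ x, x ∉ R → x ∈ R' → cp x = k → ∀ y, τ x < y ↔ x < y
  min : ∀ x, x ∉ R → x ∈ R' → cp x = k → ∀ y < x, y ∈ R
  pair : ∀ x, x ∉ R → x ∈ R' → cp x = k → (τ x, x) ∈ Tw
  pair2 : ∀ x, x ∉ R → x ∈ R' → cp x = k → ∀ x', x' ∉ R → x' ∈ R' → cp x' = k →
    τ x = τ x' → x ≠ x' → (x, x') ∈ Tw ∨ (x', x) ∈ Tw

/-- coordinates off a lower set which breaks all twin pairs -/
theorem coord_of_broken {τ : P → P} {Tw : Finset (P × P)} (H : Coord R' cp k S co)
    (hT : TwOver R R' cp k co τ Tw) {D : Finset P} (hD : ∀ x y, x ≤ y → y ∈ D → x ∈ D)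
    (hRD : R ⊆ D) (hbr : Broken Tw D) : Coord D cp k S co := by
  classical
  have hnR : ∀ x, x ∉ D → x ∉ R := fun x hx h => hx (hRD h)
  have hτD : ∀ x, x ∉ D → x ∈ R' → cp x = k → τ x ∈ D := by
    intro x hx hxR' hk
    rcases hbr _ (hT.pair x (hnR x hx) hxR' hk) with h | h
    · exact h
    · exact absurd h hx
  have huniq : ∀ x, x ∉ D → x ∈ R' → cp x = k → ∀ x', x' ∉ D → x' ∈ R' → cp x' = k →
      τ x = τ x' → x = x' := by
    intro x hx hxR' hk x' hx' hx'R' hk' h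
    by_contra hne
    rcases hT.pair2 x (hnR x hx) hxR' hk x' (hnR x' hx') hx'R' hk' h hne with h1 | h1
    · rcases hbr _ h1 with h2 | h2
      · exact hx h2
      · exact hx' h2
    · rcases hbr _ h1 with h2 | h2
      · exact hx' h2
      · exact hx h2
  -- natural and twin have different coordinates
  have hdiff : ∀ x, x ∉ D → x ∈ R' → cp x = k → ∀ y, y ∉ D → y ∉ R' → cp y = k →
      co x ≠ co y := by
    intro x hx hxR' hk y hy hyR' hky h
    obtain ⟨h1, h2, h3⟩ := hT.off x (hnR x hx) hxR' hk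
    have h4 := H.inj (τ x) y h1 hyR' h2 hky (h3.trans h)
    exact hy (h4 ▸ hτD x hx hxR' hk)
  refine ⟨?_, ?_, ?_, ?_, ?_⟩
  · intro x y hx hy hkx hky hco
    by_cases hxR : x ∈ R'
    · by_cases hyR : y ∈ R'
      · obtain ⟨h1, h2, h3⟩ := hT.off x (hnR x hx) hxR hkx
        obtain ⟨h4, h5, h6⟩ := hT.off y (hnR y hy) hyR hky
        exact huniq x hx hxR hkx y hy hyR hky
          (H.inj _ _ h1 h4 h2 h5 (h3.trans (hco.trans h6.symm)))
      · exact absurd hco (hdiff x hx hxR hkx y hy hyR hky)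
    · by_cases hyR : y ∈ R'
      · exact absurd hco.symm (hdiff y hy hyR hky x hx hxR hkx)
      · exact H.inj x y hxR hyR hkx hky hco
  · intro x y hx hy hkx hky
    by_cases hxR : x ∈ R'
    · obtain ⟨h1, h2, h3⟩ := hT.off x (hnR x hx) hxR hkx
      have hτ := hτD x hx hxR hkx
      by_cases hyR : y ∈ R'
      · obtain ⟨h4, h5, h6⟩ := hT.off y (hnR y hy) hyR hky
        have hτy := hτD y hy hyR hky
        constructor
        · intro hxy
          rcases eq_or_lt_of_le hxy with h | h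
          · rw [h]
          · exact absurd (hT.min y (hnR y hy) hyR hky x h) (hnR x hx)
        · intro hco
          by_cases hne : x = y
          · exact hne.le
          · exfalso
            have h7 : τ x ≤ τ y := by
              rw [H.le_iff _ _ h1 h4 h2 h5, h3, h6]; exact hco
            rcases eq_or_lt_of_le h7 with h8 | h8
            · exact hne (huniq x hx hxR hkx y hy hyR hky h8)
            · have h9 := (hT.up x (hnR x hx) hxR hkx (τ y)).mp h8
              exact hx (hD x _ h9.le hτy)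
      · have hyτ : y ≠ τ x := fun h => hy (h ▸ hτ)
        have h7 : x ≤ y ↔ τ x ≤ y := by
          constructor
          · intro hxy
            have hne : x ≠ y := fun h => hyR (h ▸ hxR)
            exact ((hT.up x (hnR x hx) hxR hkx y).mpr (lt_of_le_of_ne hxy hne)).le
          · intro hxy
            exact ((hT.up x (hnR x hx) hxR hkx y).mp (lt_of_le_of_ne hxy hyτ.symm)).le
        rw [h7, H.le_iff _ _ h1 hyR h2 hky, h3]
    · by_cases hyR : y ∈ R'
      · obtain ⟨h4, h5, h6⟩ := hT.off y (hnR y hy) hyR hky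
        have hτy := hτD y hy hyR hky
        constructor
        · intro hxy
          have hne : x ≠ y := fun h => hxR (h ▸ hyR)
          exact absurd (hT.min y (hnR y hy) hyR hky x (lt_of_le_of_ne hxy hne)) (hnR x hx)
        · intro hco
          exfalso
          have h7 : x ≤ τ y := by
            rw [H.le_iff _ _ hxR h4 hkx h5, h6]; exact hco
          exact hx (hD x _ h7 hτy)
      · exact H.le_iff x y hxR hyR hkx hky
  · intro x hx hk
    by_cases hxR : x ∈ R'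
    · obtain ⟨h1, h2, h3⟩ := hT.off x (hnR x hx) hxR hk
      rw [← h3]; exact H.mem _ h1 h2
    · exact H.mem x hxR hk
  · intro x hx hk c hc hS
    by_cases hxR : x ∈ R'
    · obtain ⟨h1, h2, h3⟩ := hT.off x (hnR x hx) hxR hk
      by_cases hcx : c = co x
      · exact ⟨x, hx, hk, hcx.symm⟩
      · obtain ⟨y, hyR, hyk, hyc⟩ := H.low (τ x) h1 h2 c (by rw [h3]; exact hc) hS
        have h4 : τ x ≤ y := by
          rw [H.le_iff _ _ h1 hyR h2 hyk, h3, hyc]; exact hc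
        have h5 : τ x ≠ y := by
          rintro rfl
          exact hcx (hyc.symm.trans h3)
        have h6 := (hT.up x (hnR x hx) hxR hk y).mp (lt_of_le_of_ne h4 h5)
        exact ⟨y, fun h => hx (hD x y h6.le h), hyk, hyc⟩
    · obtain ⟨y, hyR, hyk, hyc⟩ := H.low x hxR hk c hc hS
      have h4 : x ≤ y := by
        rw [H.le_iff _ _ hxR hyR hk hyk, hyc]; exact hc
      exact ⟨y, fun h => hx (hD x y h4 h), hyk, hyc⟩
  · intro x hx hk
    by_cases hxR : x ∈ R'
    · obtain ⟨h1, h2, h3⟩ := hT.off x (hnR x hx) hxR hk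
      rw [← h3, ← H.lev _ h1 h2]
      exact (lev_eq_of_up (hT.up x (hnR x hx) hxR hk)).symm
    · exact H.lev x hxR hk

end CoordTwins

end Pool.Agent.GaussPoset
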