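import Pool.Agent.W_448tw_h76.TwE

/-!
Restriction, product formula and change of the window for constrained window sums.
-/

namespace Pool.Agent.GaussPoset

set_option linter.unusedSectionVars false
set_option maxHeartbeats 400000

open Polynomial Finset

universe u

section Off

variable {P : Type u} [Fintype P] [PartialOrder P] [DecidableEq P]

lemma ZB_eq_SC (i : ℕ) (D : Finset P) (g β : P → ℕ) (n : ℕ) :
    ZB i D g β n = SC (Cst i D g β) n := rfl

lemma cst_empty_iff {i : ℕ} {β : P → ℕ} {e : P → ℕ} {F : Finset P} :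
    Cst i ∅ 0 β e F ↔ Vd i e F ∧ ∀ x, x ∉ F → (β x : ℤ) ≤ rho i e x := by
  unfold Cst
  constructor
  · rintro ⟨h1, -, h3⟩
    exact ⟨h1, fun x hx => h3 x (Finset.notMem_empty x) hx⟩
  · rintro ⟨h1, h3⟩
    exact ⟨h1, fun x hx => absurd hx (Finset.notMem_empty x), fun x _ hx => h3 x hx⟩

lemma Z_eq_ZB (i n : ℕ) : Z P i n = ZB (P := P) i ∅ 0 0 n := by
  classical
  rw [Z_eq_sum, Finset.sum_comm]
  unfold ZB
  refine Finset.sum_congr rfl fun F _ => ?_
  rw [← Finset.sum_filter]
  refine Finset.sum_congr (Finset.filter_congr fun e _ => ?_) (fun _ _ => rfl)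
  rw [cst_empty_iff]
  constructor
  · intro h
    exact ⟨h, fun x hx => by simpa using h.2.1 x hx⟩
  · intro h
    exact h.1

variable {D : Finset P} (hD : ∀ x y, x ≤ y → y ∈ D → x ∈ D)

include hD in
lemma cst_off_bound_iff {i : ℕ} (hlev : ∀ x ∈ D, i < lev x) (β : P → ℕ)
    (e : {x : P // x ∉ D} → ℕ) (F : Finset {x : P // x ∉ D}) :
    Cst i D 0 β (ext0 D e) (F.map (Function.Embedding.subtype _)) ↔
      Cst i ∅ 0 (fun x : {x : P // x ∉ D} => β x) e F := by
  classical
  have hmem : ∀ x : P, x ∈ F.map (Function.Embedding.subtype _) ↔ ∃ h : x ∉ D, ⟨x, h⟩ ∈ F := by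
    intro x
    rw [mem_map]
    constructor
    · rintro ⟨y, hy, rfl⟩
      exact ⟨y.2, hy⟩
    · rintro ⟨h, hx⟩
      exact ⟨⟨x, h⟩, hx, rfl⟩
  have hr : ∀ x : {x : P // x ∉ D}, rho i (ext0 D e) (x : P) = rho i e x := by
    intro x
    unfold rho
    rw [ext0_of x.2, lev_off hD x]
  have key := cst_off_iff hD hlev e F
  rw [cst_empty_iff, ← key]
  constructor
  · rintro ⟨h1, h2, h3⟩
    refine ⟨⟨h1, h2, fun x _ hxF => by simpa using h1.2.1 x hxF⟩, ?_⟩
    intro x hx
    have := h3 (x : P) x.2 (fun h => hx ((hmem x).mp h).2)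
    rw [hr] at this
    exact this
  · rintro ⟨⟨h1, h2, -⟩, h3⟩
    refine ⟨h1, h2, ?_⟩
    intro x hx hxF
    have := h3 ⟨x, hx⟩ (fun h => hxF ((hmem x).mpr ⟨hx, h⟩))
    rw [← hr] at this
    exact this

include hD in
/-- the bounded sum with the lower set `D` frozen at zero is a bounded sum over the rest -/
theorem ZB_off_bound {i : ℕ} (hlev : ∀ x ∈ D, i < lev x) (β : P → ℕ) (n : ℕ) :
    ZB i D 0 β n = ZB (P := {x : P // x ∉ D}) i ∅ 0 (fun x : {x : P // x ∉ D} => β x) n := by
  classical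
  unfold ZB
  rw [Finset.sum_sigma', Finset.sum_sigma']
  symm
  refine Finset.sum_bij (fun a _ => (⟨a.1.map (Function.Embedding.subtype _), ext0 D a.2⟩ :
    (_ : Finset P) × (P → ℕ))) ?_ ?_ ?_ ?_
  · rintro ⟨F, e⟩ ha
    simp only [mem_sigma, mem_univ, true_and, mem_filter, mem_piAntidiag] at ha ⊢
    refine ⟨⟨?_, fun _ _ => trivial⟩, (cst_off_bound_iff hD hlev β e F).mpr ha.2⟩
    have h2 : ∑ x, ext0 D e x = ∑ x ∈ univ.filter (fun x => x ∉ D), ext0 D e x := by
      symm
      refine Finset.sum_subset (Finset.filter_subset _ _) fun x _ hx => ?_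
      unfold ext0
      rw [dif_neg]
      simpa using hx
    have h3 : ∑ x ∈ univ.filter (fun x => x ∉ D), ext0 D e x = ∑ x, e x := by
      rw [Finset.sum_subtype (univ.filter (fun x => x ∉ D)) (p := fun x => x ∉ D) (by simp)]
      exact Finset.sum_congr rfl fun x _ => ext0_of x.2
    have h4 : ∑ x, e x = n := ha.1.1
    change ∑ x, ext0 D e x = n
    rw [h2, h3, h4]
  · rintro ⟨F, e⟩ _ ⟨F', e'⟩ _ h
    simp only [Sigma.mk.injEq, heq_eq_eq] at h ⊢
    refine ⟨Finset.map_injective _ h.1, ?_⟩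
    funext x
    have := congrFun h.2 (x : P)
    rwa [ext0_of x.2, ext0_of x.2] at this
  · rintro ⟨F, e⟩ ha
    simp only [mem_sigma, mem_univ, true_and, mem_filter, mem_piAntidiag] at ha
    obtain ⟨⟨ha1, -⟩, ha2⟩ := ha
    have hF : (F.subtype (fun x => x ∉ D)).map (Function.Embedding.subtype _) = F := by
      rw [Finset.subtype_map_of_mem]
      intro x hx hxD
      exact (ha2.2.1 x hxD).1 hx
    have he : ext0 D (fun x => e x) = e := by
      funext x
      unfold ext0
      by_cases h : x ∈ D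
      · rw [dif_neg (not_not.mpr h)]
        exact ((ha2.2.1 x h).2).symm
      · rw [dif_pos h]
    refine ⟨⟨F.subtype (fun x => x ∉ D), fun x => e x⟩, ?_, ?_⟩
    · simp only [mem_sigma, mem_univ, true_and, mem_filter, mem_piAntidiag]
      refine ⟨⟨?_, fun _ _ => trivial⟩, ?_⟩
      · have h2 : ∑ x, e x = ∑ x ∈ univ.filter (fun x => x ∉ D), e x := by
          symm
          refine Finset.sum_subset (Finset.filter_subset _ _) fun x _ hx => ?_
          have hxD : x ∈ D := by simpa using hx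
          simpa using (ha2.2.1 x hxD).2
        rw [Finset.sum_subtype (univ.filter (fun x => x ∉ D)) (p := fun x => x ∉ D) (by simp)]
          at h2
        have h3 : ∑ x, e x = n := ha1
        rw [h3] at h2
        exact h2.symm
      · exact (cst_off_bound_iff hD hlev β _ _).mp (by rw [hF, he]; exact ha2)
    · simp only [Sigma.mk.injEq, heq_eq_eq]
      exact ⟨hF, he⟩
  · rintro ⟨F, e⟩ _
    simp only [card_map]

end Off

section Prod2

variable {Q : Type u} [Fintype Q] [PartialOrder Q] [DecidableEq Q]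

/-- product formula: no relations between `p` and its complement -/
theorem ZB_prod (p : Q → Prop) [DecidablePred p] (hp : ∀ x y, x ≤ y → (p x ↔ p y)) (i : ℕ)
    (β : Q → ℕ) (n : ℕ) :
    ZB i ∅ 0 β n = ∑ ab ∈ antidiagonal n,
      ZB (P := {x // p x}) i ∅ 0 (fun x : {x // p x} => β x) ab.1 *
      ZB (P := {x // ¬ p x}) i ∅ 0 (fun x : {x // ¬ p x} => β x) ab.2 := by
  rw [ZB_eq_SC]
  refine SC_prod p _ _ _ ?_ n
  intro e F
  have hl1 : ∀ x : {x // p x}, lev x = lev (x : Q) :=
    lev_subtype (p := p) (fun x y hxy hx => (hp x y hxy).mp hx)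
  have hl2 : ∀ x : {x // ¬ p x}, lev x = lev (x : Q) :=
    lev_subtype (p := fun x => ¬ p x) (fun x y hxy hx => fun h => hx ((hp x y hxy).mpr h))
  have hr1 : ∀ x : {x // p x}, rho i (fun y : {x // p x} => e y) x = rho i e (x : Q) := by
    intro x
    unfold rho
    rw [hl1]
  have hr2 : ∀ x : {x // ¬ p x}, rho i (fun y : {x // ¬ p x} => e y) x = rho i e (x : Q) := by
    intro x
    unfold rho
    rw [hl2]
  have hm1 : ∀ x : {x // p x}, x ∈ F.subtype p ↔ (x : Q) ∈ F := fun x => mem_subtype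
  have hm2 : ∀ x : {x // ¬ p x}, x ∈ F.subtype (fun x => ¬ p x) ↔ (x : Q) ∈ F :=
    fun x => mem_subtype
  rw [cst_empty_iff, cst_empty_iff, cst_empty_iff]
  constructor
  · rintro ⟨⟨h1, h2, h3, h4⟩, h5⟩
    refine ⟨⟨⟨?_, ?_, ?_, ?_⟩, ?_⟩, ⟨⟨?_, ?_, ?_, ?_⟩, ?_⟩⟩
    · intro x y hxy hx
      rw [hm1] at hx ⊢
      exact h1 x y hxy hx
    · intro x hx
      rw [hm1] at hx
      rw [hr1]
      exact h2 x hx
    · intro x y hxy hx hy
      rw [hm1] at hx hy
      rw [hr1, hr1]
      exact h3 x y hxy hx hy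
    · intro x y hxy hx hy
      rw [hm1] at hx hy
      rw [hr1, hr1]
      exact h4 x y hxy hx hy
    · intro x hx
      rw [hm1] at hx
      rw [hr1]
      exact h5 x hx
    · intro x y hxy hx
      rw [hm2] at hx ⊢
      exact h1 x y hxy hx
    · intro x hx
      rw [hm2] at hx
      rw [hr2]
      exact h2 x hx
    · intro x y hxy hx hy
      rw [hm2] at hx hy
      rw [hr2, hr2]
      exact h3 x y hxy hx hy
    · intro x y hxy hx hy
      rw [hm2] at hx hy
      rw [hr2, hr2]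
      exact h4 x y hxy hx hy
    · intro x hx
      rw [hm2] at hx
      rw [hr2]
      exact h5 x hx
  · rintro ⟨⟨⟨a1, a2, a3, a4⟩, a5⟩, ⟨⟨b1, b2, b3, b4⟩, b5⟩⟩
    refine ⟨⟨?_, ?_, ?_, ?_⟩, ?_⟩
    · intro x y hxy hx
      by_cases h : p x
      · exact (hm1 ⟨y, (hp x y hxy).mp h⟩).mp (a1 ⟨x, h⟩ _ hxy ((hm1 ⟨x, h⟩).mpr hx))
      · exact (hm2 ⟨y, fun h' => h ((hp x y hxy).mpr h')⟩).mp
          (b1 ⟨x, h⟩ _ hxy ((hm2 ⟨x, h⟩).mpr hx))
    · intro x hx
      by_cases h : p x
      · rw [← hr1 ⟨x, h⟩]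
        exact a2 _ (fun h' => hx ((hm1 _).mp h'))
      · rw [← hr2 ⟨x, h⟩]
        exact b2 _ (fun h' => hx ((hm2 _).mp h'))
    · intro x y hxy hx hy
      by_cases h : p x
      · have h' := (hp x y hxy).mp h
        rw [← hr1 ⟨x, h⟩, ← hr1 ⟨y, h'⟩]
        exact a3 _ _ hxy (fun h' => hx ((hm1 _).mp h')) (fun h' => hy ((hm1 _).mp h'))
      · have h' : ¬ p y := fun h' => h ((hp x y hxy).mpr h')
        rw [← hr2 ⟨x, h⟩, ← hr2 ⟨y, h'⟩]
        exact b3 _ _ hxy (fun h' => hx ((hm2 _).mp h')) (fun h' => hy ((hm2 _).mp h'))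
    · intro x y hxy hx hy
      by_cases h : p x
      · have h' := (hp x y hxy.le).mp h
        rw [← hr1 ⟨x, h⟩, ← hr1 ⟨y, h'⟩]
        exact a4 _ _ hxy ((hm1 _).mpr hx) ((hm1 _).mpr hy)
      · have h' : ¬ p y := fun h' => h ((hp x y hxy.le).mpr h')
        rw [← hr2 ⟨x, h⟩, ← hr2 ⟨y, h'⟩]
        exact b4 _ _ hxy ((hm2 _).mpr hx) ((hm2 _).mpr hy)
    · intro x hx
      by_cases h : p x
      · rw [← hr1 ⟨x, h⟩]
        exact a5 _ (fun h' => hx ((hm1 _).mp h'))
      · rw [← hr2 ⟨x, h⟩]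
        exact b5 _ (fun h' => hx ((hm2 _).mp h'))

end Prod2

section Iso

variable {P : Type u} [Fintype P] [PartialOrder P] [DecidableEq P]
variable {Q : Type*} [Fintype Q] [PartialOrder Q] [DecidableEq Q]

omit [DecidableEq P] [DecidableEq Q] in
lemma lev_iso (φ : P ≃o Q) (x : P) : lev (φ x) = lev x := by
  apply le_antisymm
  · obtain ⟨f, hf, hfx⟩ := Nat.sInf_mem (exists_strictAnti x)
    have h1 : StrictAnti (fun y : Q => f (φ.symm y)) := by
      intro a b hab
      exact hf (φ.symm.lt_iff_lt.mpr hab)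
    have h2 := lev_le h1 (φ x)
    simp only [OrderIso.symm_apply_apply] at h2
    exact h2.trans hfx.le
  · obtain ⟨f, hf, hfx⟩ := Nat.sInf_mem (exists_strictAnti (φ x))
    have h1 : StrictAnti (fun y : P => f (φ y)) := by
      intro a b hab
      exact hf (φ.lt_iff_lt.mpr hab)
    exact (lev_le h1 x).trans hfx.le

/-- invariance under isomorphisms -/
theorem ZB_iso (φ : P ≃o Q) (i : ℕ) (β : Q → ℕ) (n : ℕ) :
    ZB i ∅ 0 (fun x : P => β (φ x)) n = ZB i ∅ 0 β n := by
  classical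
  have hr : ∀ (e : Q → ℕ) (x : P), rho i (fun y => e (φ y)) x = rho i e (φ x) := by
    intro e x
    unfold rho
    rw [lev_iso]
  have hC : ∀ (e : Q → ℕ) (F : Finset P), Cst i ∅ 0 (fun x : P => β (φ x)) (fun y => e (φ y)) F ↔
      Cst i ∅ 0 β e (F.map φ.toEquiv.toEmbedding) := by
    intro e F
    have hm : ∀ x : P, φ x ∈ F.map φ.toEquiv.toEmbedding ↔ x ∈ F := by
      intro x
      rw [mem_map]
      constructor
      · rintro ⟨y, hy, h⟩
        have : y = x := φ.injective h
        rw [← this]; exact hy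
      · intro h
        exact ⟨x, h, rfl⟩
    rw [cst_empty_iff, cst_empty_iff]
    unfold Vd
    constructor
    · rintro ⟨⟨h1, h2, h3, h4⟩, h5⟩
      refine ⟨⟨?_, ?_, ?_, ?_⟩, ?_⟩
      · intro x y hxy hx
        obtain ⟨x, rfl⟩ := φ.surjective x
        obtain ⟨y, rfl⟩ := φ.surjective y
        rw [hm] at hx ⊢
        exact h1 x y (φ.le_iff_le.mp hxy) hx
      · intro x hx
        obtain ⟨x, rfl⟩ := φ.surjective x
        rw [hm] at hx
        rw [← hr]
        exact h2 x hx
      · intro x y hxy hx hy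
        obtain ⟨x, rfl⟩ := φ.surjective x
        obtain ⟨y, rfl⟩ := φ.surjective y
        rw [hm] at hx hy
        rw [← hr, ← hr]
        exact h3 x y (φ.le_iff_le.mp hxy) hx hy
      · intro x y hxy hx hy
        obtain ⟨x, rfl⟩ := φ.surjective x
        obtain ⟨y, rfl⟩ := φ.surjective y
        rw [hm] at hx hy
        rw [← hr, ← hr]
        exact h4 x y (φ.lt_iff_lt.mp hxy) hx hy
      · intro x hx
        obtain ⟨x, rfl⟩ := φ.surjective x
        rw [hm] at hx
        rw [← hr]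
        exact h5 x hx
    · rintro ⟨⟨h1, h2, h3, h4⟩, h5⟩
      refine ⟨⟨?_, ?_, ?_, ?_⟩, ?_⟩
      · intro x y hxy hx
        rw [← hm] at hx ⊢
        exact h1 _ _ (φ.le_iff_le.mpr hxy) hx
      · intro x hx
        rw [hr]
        exact h2 _ (fun h => hx ((hm x).mp h))
      · intro x y hxy hx hy
        rw [hr, hr]
        exact h3 _ _ (φ.le_iff_le.mpr hxy) (fun h => hx ((hm x).mp h)) (fun h => hy ((hm y).mp h))
      · intro x y hxy hx hy
        rw [hr, hr]
        exact h4 _ _ (φ.lt_iff_lt.mpr hxy) ((hm x).mpr hx) ((hm y).mpr hy)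
      · intro x hx
        rw [hr]
        exact h5 _ (fun h => hx ((hm x).mp h))
  rw [ZB_eq_SC, ZB_eq_SC, SC_eq_cfg, SC_eq_cfg]
  symm
  refine Finset.sum_bij (fun x _ => (x.1.map φ.symm.toEquiv.toEmbedding, fun y => x.2 (φ y)))
    ?_ ?_ ?_ ?_
  · rintro ⟨F, e⟩ hx
    rw [mem_cfg] at hx ⊢
    simp only at hx ⊢
    refine ⟨?_, ?_⟩
    · rw [← hx.1]
      exact Fintype.sum_equiv φ.toEquiv _ _ (fun _ => rfl)
    · rw [hC]
      have h1 : (F.map φ.symm.toEquiv.toEmbedding).map φ.toEquiv.toEmbedding = F := by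
        ext y
        simp [mem_map]
      rw [h1]
      exact hx.2
  · rintro ⟨F, e⟩ _ ⟨F', e'⟩ _ h
    simp only [Prod.mk.injEq] at h ⊢
    refine ⟨Finset.map_injective _ h.1, ?_⟩
    funext y
    obtain ⟨x, rfl⟩ := φ.surjective y
    exact congrFun h.2 x
  · rintro ⟨F, e⟩ hx
    rw [mem_cfg] at hx
    simp only at hx
    refine ⟨(F.map φ.toEquiv.toEmbedding, fun y => e (φ.symm y)), ?_, ?_⟩
    · rw [mem_cfg]
      simp only
      refine ⟨?_, ?_⟩
      · rw [← hx.1]
        exact Fintype.sum_equiv φ.symm.toEquiv _ _ (fun _ => rfl)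
      · rw [← hC]
        simp only [OrderIso.symm_apply_apply]
        exact hx.2
    · simp only [OrderIso.symm_apply_apply, Prod.mk.injEq, and_true]
      ext y
      simp [mem_map]
  · rintro ⟨F, e⟩ _
    simp only [card_map]

theorem Z_iso (φ : P ≃o Q) (i n : ℕ) : Z P i n = Z Q i n := by
  rw [Z_eq_ZB, Z_eq_ZB]
  exact ZB_iso φ i 0 n

end Iso

section Shift

variable {Q : Type u} [Fintype Q] [PartialOrder Q] [DecidableEq Q]

/-- change of the window for a poset with a least element -/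
lemma cst_bottom_iff {v : Q} (hv : ∀ x, v ≤ x) {i k : ℕ} (hiv : i < lev v) (e : Q → ℕ)
    (F : Finset Q) :
    Cst i ∅ 0 (sgz v k) (fun x => e x + min k (lev x - i)) F ↔ Vd (i + k) e F := by
  have hr : ∀ x, rho i (fun x => e x + min k (lev x - i)) x = rho (i + k) e x + k := by
    intro x
    unfold rho
    have h0 : (((e x + min k (lev x - i) : ℕ) : ℤ)) = (e x : ℤ) + ((min k (lev x - i) : ℕ) : ℤ) :=
      by push_cast; ring
    rw [h0]
    have h2 : ((min k (lev x - i) : ℕ) : ℤ) - ((i - lev x : ℕ) : ℤ) =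
        k - ((i + k - lev x : ℕ) : ℤ) := by
      rcases le_total (lev x) i with h | h
      · have h1 : min k (lev x - i) = 0 := by
          rw [Nat.sub_eq_zero_of_le h, Nat.min_zero]
        rw [h1]
        omega
      · rcases le_total (lev x) (i + k) with h' | h'
        · have h1 : min k (lev x - i) = lev x - i := min_eq_right (by omega)
          rw [h1]
          omega
        · have h1 : min k (lev x - i) = k := min_eq_left (by omega)
          rw [h1]
          omega
    linarith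
  rw [cst_single_iff hiv]
  unfold Vd
  constructor
  · rintro ⟨⟨h1, h2, h3, h4⟩, h5⟩
    refine ⟨h1, ?_, ?_, ?_⟩
    · intro x hx
      have hvF : v ∉ F := fun h => hx (h1 v x (hv x) h)
      have h6 := h3 v x (hv x) hvF hx
      have h7 := h5.resolve_left hvF
      have h8 : (k : ℤ) ≤ rho i (fun x => e x + min k (lev x - i)) v := by
        rw [rho_of_lt hiv]
        exact_mod_cast h7
      rw [hr, hr] at h6
      rw [hr] at h8
      omega
    · intro x y hxy hx hy
      have := h3 x y hxy hx hy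
      rw [hr, hr] at this
      omega
    · intro x y hxy hx hy
      have := h4 x y hxy hx hy
      rw [hr, hr] at this
      omega
  · rintro ⟨h1, h2, h3, h4⟩
    refine ⟨⟨h1, ?_, ?_, ?_⟩, ?_⟩
    · intro x hx
      have := h2 x hx
      rw [hr]
      omega
    · intro x y hxy hx hy
      have := h3 x y hxy hx hy
      rw [hr, hr]
      omega
    · intro x y hxy hx hy
      have := h4 x y hxy hx hy
      rw [hr, hr]
      omega
    · by_cases hvF : v ∈ F
      · exact Or.inl hvF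
      · right
        have h5 := h2 v hvF
        have h6 := hr v
        rw [rho_of_lt hiv] at h6
        have h7 : ((fun x => e x + min k (lev x - i)) v : ℤ) = rho (i + k) e v + k := h6
        simp only at h7
        omega

/-- a configuration with a high label at the least element costs -/
lemma le_of_cst_bottom {v : Q} (hv : ∀ x, v ≤ x) {i k : ℕ} (hiv : i < lev v) {e : Q → ℕ}
    {F : Finset Q} (h : Cst i ∅ 0 (sgz v k) e F) (x : Q) : min k (lev x - i) ≤ e x := by
  rw [cst_single_iff hiv] at h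
  have h1 := ez_le (h := fun _ => k) h.1 hiv h.2 x
  unfold ez at h1
  rw [if_pos (hv x)] at h1
  exact h1

theorem ZB_bottom {v : Q} (hv : ∀ x, v ≤ x) {i k : ℕ} (hiv : i < lev v) (n : ℕ) :
    ZB (P := Q) i ∅ 0 (sgz v k) (n + ∑ x : Q, min k (lev x - i)) = Z Q (i + k) n := by
  classical
  rw [ZB_eq_SC, Z_eq_ZB, ZB_eq_SC, SC_eq_cfg, SC_eq_cfg]
  symm
  refine Finset.sum_bij (fun (x : Finset Q × (Q → ℕ)) _ =>
    ((x.1, fun y => x.2 y + min k (lev y - i)) : Finset Q × (Q → ℕ))) ?_ ?_ ?_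
    (fun _ _ => rfl)
  · rintro ⟨F, e⟩ hx
    rw [mem_cfg] at hx ⊢
    simp only at hx ⊢
    refine ⟨?_, ?_⟩
    · rw [Finset.sum_add_distrib, hx.1]
    · exact (cst_bottom_iff hv hiv _ _).mpr (cst_empty_iff.mp hx.2).1
  · rintro ⟨F, e⟩ _ ⟨F', e'⟩ _ h
    simp only [Prod.mk.injEq] at h ⊢
    refine ⟨h.1, ?_⟩
    funext y
    have := congrFun h.2 y
    simpa using this
  · rintro ⟨F, e⟩ hx
    rw [mem_cfg] at hx
    simp only at hx
    have hle := le_of_cst_bottom hv hiv hx.2
    have hfun : (fun y => (e y - min k (lev y - i)) + min k (lev y - i)) = e := by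
      funext y
      exact Nat.sub_add_cancel (hle y)
    refine ⟨(F, fun y => e y - min k (lev y - i)), ?_, ?_⟩
    · rw [mem_cfg]
      simp only
      have hV : Vd (i + k) (fun y => e y - min k (lev y - i)) F := by
        rw [← cst_bottom_iff hv hiv, hfun]
        exact hx.2
      refine ⟨?_, cst_empty_iff.mpr ⟨hV, fun x hxF => by simpa using hV.2.1 x hxF⟩⟩
      have h1 : ∑ y, ((e y - min k (lev y - i)) + min k (lev y - i)) = ∑ y, e y :=
        Finset.sum_congr rfl fun y _ => congrFun hfun y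
      rw [Finset.sum_add_distrib, hx.1] at h1
      omega
    · simp only [Prod.mk.injEq, true_and]
      exact hfun

theorem ZB_bottom_zero {v : Q} (hv : ∀ x, v ≤ x) {i k : ℕ} (hiv : i < lev v) {n : ℕ}
    (hn : n < ∑ x : Q, min k (lev x - i)) : ZB (P := Q) i ∅ 0 (sgz v k) n = 0 := by
  rw [ZB_eq_SC]
  refine SC_eq_zero fun e F h hs => ?_
  have := Finset.sum_le_sum fun (x : Q) (_ : x ∈ (univ : Finset Q)) =>
    le_of_cst_bottom hv hiv h x
  omega

end Shift

/-- division lemma: the order of one factor from the order of the product -/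
theorem dvd_of_prod {A B : ℕ → ℤ[X]} {α β : ℕ} {N : ℕ} {u : ℕ}
    (h0 : A 0 = X ^ u * (1 + X) ^ α) (hA : ∀ a, (1 + X : ℤ[X]) ^ α ∣ A a)
    (h : ∀ n < N, (1 + X : ℤ[X]) ^ (α + β) ∣ ∑ ab ∈ antidiagonal n, A ab.1 * B ab.2) :
    ∀ n < N, (1 + X : ℤ[X]) ^ β ∣ B n := by
  have hm : (1 + X : ℤ[X]).Monic := by
    have := monic_X_add_C (1 : ℤ)
    rwa [map_one, add_comm] at this
  have hcop : IsCoprime ((1 + X : ℤ[X]) ^ β) (X ^ u) := by
    refine IsCoprime.pow ?_
    exact ⟨1, -1, by ring⟩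
  intro n
  induction n using Nat.strong_induction_on with
  | _ n ih =>
    intro hn
    have h1 := h n hn
    have hmem : ((0, n) : ℕ × ℕ) ∈ antidiagonal n := by
      rw [HasAntidiagonal.mem_antidiagonal]
      exact Nat.zero_add n
    have h2 : ∑ ab ∈ antidiagonal n, A ab.1 * B ab.2 = A 0 * B n +
        ∑ ab ∈ (antidiagonal n).erase (0, n), A ab.1 * B ab.2 :=
      (Finset.add_sum_erase (antidiagonal n) (fun ab : ℕ × ℕ => A ab.1 * B ab.2) hmem).symm
    have h3 : (1 + X : ℤ[X]) ^ (α + β) ∣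
        ∑ ab ∈ (antidiagonal n).erase (0, n), A ab.1 * B ab.2 := by
      refine Finset.dvd_sum fun ab hab => ?_
      rw [mem_erase, HasAntidiagonal.mem_antidiagonal] at hab
      rw [pow_add]
      refine mul_dvd_mul (hA _) (ih ab.2 ?_ (by omega))
      have h4 : ab.1 ≠ 0 := by
        intro h4
        apply hab.1
        exact Prod.ext h4 (by simp only; omega)
      omega
    rw [h2] at h1
    have h4 := (dvd_add_left h3).mp h1
    rw [h0, pow_add] at h4
    have h5 : X ^ u * (1 + X : ℤ[X]) ^ α * B n = (1 + X) ^ α * (X ^ u * B n) := by ring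
    rw [h5] at h4
    have h6 := (mul_dvd_mul_iff_left (pow_ne_zero α hm.ne_zero)).mp h4
    exact hcop.dvd_of_dvd_mul_left h6

end Pool.Agent.GaussPoset
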