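import Pool.Agent.W_448fw_h5.FwE

/-!
Truncated cleanness (energies `< n0`), the step identity, redundant bounds.
-/

namespace Pool.Agent.GaussPoset

set_option linter.unusedSectionVars false

open Polynomial Finset

universe u

variable {P : Type u} [Fintype P] [PartialOrder P] [DecidableEq P]

section Shift

variable {i : ℕ} {D : Finset P} {g : P → ℕ} (β : P → ℕ)

/-- Lemma A, truncated -/
lemma dvd_ZB_shift_lt (hD : ∀ x y, x ≤ y → y ∈ D → x ∈ D) (hlev : ∀ x ∈ D, i < lev x)
    (hg : ∀ x, x ∉ D → g x = 0) (p : ℤ[X]) (n0 : ℕ)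
    (h : ∀ n < n0, p ∣ ZB i D 0 (bg D g β) n) (n : ℕ) (hn0 : n < n0) :
    p ∣ ZB i D g β n := by
  by_cases hc : ∀ x ∈ D, ∀ y ∈ D, x ≤ y → g x ≤ g y
  · by_cases hn : n < ∑ x ∈ D, g x
    · rw [ZB_zero_of_lt β n hn]; exact dvd_zero p
    · have hs : ∑ x ∈ D, g x = ∑ x, g x :=
        Finset.sum_subset (subset_univ D) fun x _ hx => hg x hx
      obtain ⟨m, rfl⟩ : ∃ m, n = m + ∑ x, g x := ⟨n - ∑ x, g x, by omega⟩
      rw [ZB_shift β hD hlev hg hc]
      exact h m (by omega)
  · rw [ZB_zero_of_not_compat β hlev hc]; exact dvd_zero p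

end Shift

section Step

variable {i : ℕ} {D : Finset P} {g : P → ℕ} (β : P → ℕ) (x0 : P)

open Classical in
/-- raising the bound at `x0` by one: the identity -/
theorem ZB_step_eq (hx0 : x0 ∉ D) (hlx : i < lev x0) (n : ℕ) :
    ZB i D g β n = ZB i D g (Function.update β x0 (β x0 + 1)) n +
      ∑ g' ∈ Fintype.piFinset (fun _ : P => range (n + 1)),
        if Gd D g β x0 g' then ZB i (D ∪ dnf x0) g' β n else 0 := by
  set Gs : Finset (P → ℕ) := Fintype.piFinset (fun _ => range (n + 1)) with hGs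
  have h3 : ∀ g' ∈ Gs, (if Gd D g β x0 g' then ZB i (D ∪ dnf x0) g' β n else 0) =
      ∑ F : Finset P, ∑ _e ∈ ((univ : Finset P).piAntidiag n).filter
        (fun e => Fib i D g β x0 g' e F), (X : ℤ[X]) ^ F.card := by
    intro g' _
    by_cases hG : Gd D g β x0 g'
    · rw [if_pos hG]
      unfold ZB
      refine Finset.sum_congr rfl fun F _ => ?_
      have : ∀ e : P → ℕ, Fib i D g β x0 g' e F ↔ Cst i (D ∪ dnf x0) g' β e F := by
        intro e
        rw [fib_iff β x0 hlx]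
        exact ⟨fun h => h.2, fun h => ⟨hG, h⟩⟩
      simp only [this]
    · rw [if_neg hG]
      symm
      refine Finset.sum_eq_zero fun F _ => ?_
      rw [Finset.filter_eq_empty_iff.mpr, Finset.sum_empty]
      intro e _ hC
      rw [fib_iff β x0 hlx] at hC
      exact hG hC.1
  rw [Finset.sum_congr rfl h3, Finset.sum_comm]
  unfold ZB
  rw [← Finset.sum_add_distrib]
  refine Finset.sum_congr rfl fun F _ => ?_
  have h4 : ∑ g' ∈ Gs, ∑ _e ∈ ((univ : Finset P).piAntidiag n).filter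
        (fun e => Fib i D g β x0 g' e F), (X : ℤ[X]) ^ F.card =
      ∑ _e ∈ ((univ : Finset P).piAntidiag n).filter
        (fun e => Cst i D g β e F ∧ (x0 ∉ F ∧ e x0 = β x0)), (X : ℤ[X]) ^ F.card := by
    have hmaps : ∀ e ∈ ((univ : Finset P).piAntidiag n).filter
        (fun e => Cst i D g β e F ∧ (x0 ∉ F ∧ e x0 = β x0)),
        (fun x => if x ∈ D ∪ dnf x0 then e x else 0) ∈ Gs := by
      intro e he
      rw [mem_filter, mem_piAntidiag] at he
      rw [hGs, Fintype.mem_piFinset]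
      intro x
      rw [mem_range]
      have h5 : e x ≤ ∑ y, e y := Finset.single_le_sum (fun y _ => Nat.zero_le _) (mem_univ x)
      have h6 : ∑ y, e y = n := he.1.1
      split_ifs <;> omega
    refine Eq.trans ?_ (Finset.sum_fiberwise_of_maps_to hmaps (fun _ => (X : ℤ[X]) ^ F.card))
    refine Finset.sum_congr rfl fun g' _ => ?_
    refine Finset.sum_congr ?_ (fun _ _ => rfl)
    ext e
    simp only [mem_filter, Fib]
    constructor
    · rintro ⟨h5, h6, h7, h8, h9⟩
      exact ⟨⟨h5, h6, h7, h8⟩, funext fun x => (h9 x).symm⟩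
    · rintro ⟨⟨h5, h6, h7, h8⟩, h9⟩
      exact ⟨h5, h6, h7, h8, fun x => (congrFun h9 x).symm⟩
  rw [h4]
  have h5 : ((univ : Finset P).piAntidiag n).filter
      (fun e => Cst i D g (Function.update β x0 (β x0 + 1)) e F) =
      ((univ : Finset P).piAntidiag n).filter
      (fun e => Cst i D g β e F ∧ ¬ (x0 ∉ F ∧ e x0 = β x0)) := by
    refine Finset.filter_congr fun e _ => ?_
    rw [cst_update_iff β x0 hx0 hlx]
  rw [h5, ← Finset.filter_filter, ← Finset.filter_filter]
  have h6 := Finset.sum_filter_add_sum_filter_not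
    (((univ : Finset P).piAntidiag n).filter (fun e => Cst i D g β e F))
    (fun e : P → ℕ => (x0 ∉ F ∧ e x0 = β x0)) (fun _ => (X : ℤ[X]) ^ F.card)
  rw [← h6, add_comm]

/-- raising a bound -/
lemma dvd_ZB_step_up (hx0 : x0 ∉ D) (hlx : i < lev x0) (p : ℤ[X]) (n : ℕ)
    (h1 : p ∣ ZB i D g β n)
    (h2 : ∀ g', Gd D g β x0 g' → p ∣ ZB i (D ∪ dnf x0) g' β n) :
    p ∣ ZB i D g (Function.update β x0 (β x0 + 1)) n := by
  classical
  have key := ZB_step_eq (g := g) β x0 hx0 hlx n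
  have h7 : ZB i D g (Function.update β x0 (β x0 + 1)) n = ZB i D g β n -
      ∑ g' ∈ Fintype.piFinset (fun _ : P => range (n + 1)),
        if Gd D g β x0 g' then ZB i (D ∪ dnf x0) g' β n else 0 := by
    rw [key]; ring
  rw [h7]
  refine dvd_sub h1 (Finset.dvd_sum fun g' _ => ?_)
  split_ifs with hG
  · exact h2 g' hG
  · exact dvd_zero p

/-- lowering a bound -/
lemma dvd_ZB_step_down (hx0 : x0 ∉ D) (hlx : i < lev x0) (p : ℤ[X]) (n : ℕ)
    (h1 : p ∣ ZB i D g (Function.update β x0 (β x0 + 1)) n)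
    (h2 : ∀ g', Gd D g β x0 g' → p ∣ ZB i (D ∪ dnf x0) g' β n) :
    p ∣ ZB i D g β n := by
  classical
  rw [ZB_step_eq (g := g) β x0 hx0 hlx n]
  refine dvd_add h1 (Finset.dvd_sum fun g' _ => ?_)
  split_ifs with hG
  · exact h2 g' hG
  · exact dvd_zero p

end Step

/-- bounds which follow from other bounds can be dropped -/
lemma ZB_redundant {i : ℕ} {D : Finset P} {g β β' : P → ℕ}
    (h1 : ∀ x, x ∉ D → β x ≤ β' x)
    (h2 : ∀ y, y ∉ D → β' y ≤ β y ∨ ∃ x ≤ y, x ∉ D ∧ β' y ≤ β x) (n : ℕ) :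
    ZB i D g β' n = ZB i D g β n := by
  classical
  unfold ZB
  refine Finset.sum_congr rfl fun F _ => ?_
  refine Finset.sum_congr (Finset.filter_congr fun e _ => ?_) (fun _ _ => rfl)
  unfold Cst
  refine and_congr_right fun hV => and_congr Iff.rfl ⟨fun h x hx hxF => ?_, fun h y hy hyF => ?_⟩
  · have := h x hx hxF
    have h3 : (β x : ℤ) ≤ β' x := by exact_mod_cast h1 x hx
    exact h3.trans this
  · rcases h2 y hy with h3 | ⟨x, hxy, hx, h3⟩
    · have := h y hy hyF
      have h4 : (β' y : ℤ) ≤ β y := by exact_mod_cast h3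
      exact h4.trans this
    · have hxF : x ∉ F := fun h' => hyF (hV.1 x y hxy h')
      have := h x hx hxF
      have h4 : (β' y : ℤ) ≤ β x := by exact_mod_cast h3
      exact h4.trans (this.trans (hV.2.2.1 x y hxy hxF hyF))

/-- bounded cleanness from unbounded cleanness, truncated -/
theorem dvd_ZB_bounds_lt (i : ℕ) (p : ℤ[X]) (n0 : ℕ) (DD : Set (Finset P)) (θ : P → ℕ)
    (hlow : ∀ D ∈ DD, ∀ x y, x ≤ y → y ∈ D → x ∈ D) (hlev : ∀ D ∈ DD, ∀ x ∈ D, i < lev x)
    (hθ : ∀ x, 1 ≤ θ x → i < lev x) (c0 : ∀ D ∈ DD, ∀ n < n0, p ∣ ZB i D 0 0 n)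
    (c1 : ∀ D ∈ DD, ∀ x, x ∉ D → 1 ≤ θ x → D ∪ dnf x ∈ DD)
    (c2 : ∀ D ∈ DD, ∀ x, x ∉ D → 1 ≤ θ x → ∀ y ≤ x, y ∉ D → ∀ x', y ⋖ x' → ¬ x' ≤ x →
      θ x ≤ θ x' + 1) :
    ∀ D ∈ DD, ∀ β : P → ℕ, (∀ x, x ∉ D → β x ≤ θ x) → ∀ n < n0, p ∣ ZB i D 0 β n := by
  classical
  have outer : ∀ N : ℕ, ∀ D ∈ DD, (Dᶜ).card = N → ∀ β : P → ℕ, (∀ x, x ∉ D → β x ≤ θ x) →
      ∀ n < n0, p ∣ ZB i D 0 β n := by
    intro N
    induction N using Nat.strong_induction_on with
    | _ N ihN =>
    intro D hDD hN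
    have inner : ∀ s : ℕ, ∀ β : P → ℕ, (∑ x ∈ Dᶜ, β x = s) → (∀ x, x ∉ D → β x ≤ θ x) →
        ∀ n < n0, p ∣ ZB i D 0 β n := by
      intro s
      induction s with
      | zero =>
        intro β hβ _ n hn
        have h0 : ∀ x, x ∉ D → β x = 0 := by
          intro x hx
          rw [Finset.sum_eq_zero_iff] at hβ
          exact hβ x (by simpa using hx)
        rw [ZB_congr (g' := 0) (β' := 0) (fun _ _ => rfl) (fun x hx => by simpa using h0 x hx)]
        exact c0 D hDD n hn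
      | succ s ihs =>
        intro β hβ hbd n hn
        obtain ⟨x0, hx0, hx0b⟩ : ∃ x0, x0 ∉ D ∧ 1 ≤ β x0 := by
          by_contra hcon
          push Not at hcon
          have : ∑ x ∈ Dᶜ, β x = 0 := Finset.sum_eq_zero fun x hx => by
            have := hcon x (by simpa using hx)
            omega
          omega
        let β' : P → ℕ := Function.update β x0 (β x0 - 1)
        have hβ'x : β' x0 = β x0 - 1 := Function.update_self _ _ _
        have hβ'n : ∀ x, x ≠ x0 → β' x = β x := fun x hx => Function.update_of_ne hx _ _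
        have hββ : β = Function.update β' x0 (β' x0 + 1) := by
          funext x
          by_cases hx : x = x0
          · subst hx
            rw [Function.update_self, hβ'x]; omega
          · rw [Function.update_of_ne hx, hβ'n x hx]
        have hle : ∀ x, β' x ≤ β x := by
          intro x
          by_cases hx : x = x0
          · subst hx; rw [hβ'x]; omega
          · rw [hβ'n x hx]
        have hθx0 : 1 ≤ θ x0 := hx0b.trans (hbd x0 hx0)
        have hsum : ∑ x ∈ Dᶜ, β' x = s := by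
          have h1 : ∑ x ∈ Dᶜ, β x = ∑ x ∈ Dᶜ, β' x + 1 := by
            rw [← Finset.add_sum_erase Dᶜ β (by simpa using hx0 : x0 ∈ Dᶜ),
              ← Finset.add_sum_erase Dᶜ β' (by simpa using hx0 : x0 ∈ Dᶜ), hβ'x]
            have h2 : ∑ x ∈ Dᶜ.erase x0, β x = ∑ x ∈ Dᶜ.erase x0, β' x :=
              Finset.sum_congr rfl fun x hx => (hβ'n x (ne_of_mem_erase hx)).symm
            omega
          omega
        rw [hββ]
        refine dvd_ZB_step_up β' x0 hx0 (hθ x0 hθx0) p n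
          (ihs β' hsum (fun x hx => (hle x).trans (hbd x hx)) n hn) ?_
        intro g' hG
        obtain ⟨g1, g2, g3, g4, g5⟩ := hG
        have hD' := c1 D hDD x0 hx0 hθx0
        refine dvd_ZB_shift_lt β' (hlow _ hD') (hlev _ hD') g5 p n0 (fun n hn => ?_) n hn
        refine ihN _ ?_ _ hD' rfl _ ?_ n hn
        · rw [← hN]
          apply Finset.card_lt_card
          rw [Finset.compl_ssubset_compl]
          rw [Finset.ssubset_iff_of_subset subset_union_left]
          exact ⟨x0, mem_union_right _ (mem_dnf.mpr le_rfl), hx0⟩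
        · intro x hx
          rw [mem_union, mem_dnf, not_or] at hx
          refine bg_le ((hle x).trans (hbd x hx.1)) ?_
          intro y hy hyx
          by_cases hyD : y ∈ D
          · rw [g1 y hyD]; exact Nat.zero_le _
          · have hyx0 : y ≤ x0 := by
              rcases mem_union.mp hy with h | h
              · exact absurd h hyD
              · exact mem_dnf.mp h
            have h1 := g3 y hyx0
            rw [hβ'x] at h1
            have h2 := c2 D hDD x0 hx0 hθx0 y hyx0 hyD x hyx hx.2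
            have h3 := hbd x0 hx0
            omega
    intro β hbd n hn
    exact inner _ β rfl hbd n hn
  intro D hDD β hbd n hn
  exact outer _ D hDD rfl β hbd n hn

/-- the same with frozen labels on `D` -/
theorem dvd_ZB_labels_lt (i : ℕ) (p : ℤ[X]) (n0 : ℕ) (DD : Set (Finset P)) (θ : P → ℕ)
    (hlow : ∀ D ∈ DD, ∀ x y, x ≤ y → y ∈ D → x ∈ D) (hlev : ∀ D ∈ DD, ∀ x ∈ D, i < lev x)
    (hb : ∀ D ∈ DD, ∀ β : P → ℕ, (∀ x, x ∉ D → β x ≤ θ x) → ∀ n < n0, p ∣ ZB i D 0 β n)
    {D : Finset P} (hD : D ∈ DD) (g : P → ℕ) (hg0 : ∀ x, x ∉ D → g x = 0)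
    (hg : ∀ y ∈ D, ∀ x, x ∉ D → y ⋖ x → g y ≤ θ x) (n : ℕ) (hn : n < n0) :
    p ∣ ZB i D g 0 n := by
  refine dvd_ZB_shift_lt 0 (hlow D hD) (hlev D hD) hg0 p n0 (fun n hn => ?_) n hn
  refine hb D hD _ ?_ n hn
  intro x hx
  exact bg_le (Nat.zero_le _) fun y hy hyx => hg y hy x hx hyx

end Pool.Agent.GaussPoset
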