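import Pool.Agent.W_448tw_h76.TwA

/-!
The twin lemma: twins (elements with the same upper covers) of natural elements can be
admitted, with the same thresholds, as long as the energy is small.
-/

namespace Pool.Agent.GaussPoset

set_option linter.unusedSectionVars false

open Polynomial Finset

universe u

variable {P : Type u} [Fintype P] [PartialOrder P] [DecidableEq P]

omit [DecidableEq P] in
lemma lev_eq_of_up {x x' : P} (h : ∀ y, x < y ↔ x' < y) : lev x = lev x' := by
  have key : ∀ a b : P, (∀ y, a < y ↔ b < y) → lev a ≤ lev b := by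
    intro a b hab
    rcases Nat.eq_zero_or_pos (lev a) with h0 | h0
    · omega
    · obtain ⟨y, hy, hly⟩ := exists_lev_succ (x := a) (k := lev a - 1) (by omega)
      have h1 := lev_strictAnti ((hab y).mp hy)
      omega
  exact le_antisymm (key _ _ h) (key _ _ fun y => (h y).symm)

/-- a pair of twins `x, x'` with common threshold, for energies `< n0` -/
structure TwinPair (i : ℕ) (θ : P → ℕ) (n0 : ℕ) (x x' : P) : Prop where
  ne : x ≠ x'
  up : ∀ y, x < y ↔ x' < y
  one_le : 1 ≤ θ x
  eq : θ x' = θ x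
  le : θ x ≤ lev x - i
  costF : n0 ≤ ∑ y, (by classical exact if x ≤ y then lev y - i else 0) + θ x
  costT : n0 ≤ ∑ y, (by classical exact if x < y then min (θ x + 1) (lev y - i) else 0) +
    (2 * θ x + 1)

section Step

variable {i : ℕ} {p : ℤ[X]} {n0 : ℕ} {θ : P → ℕ} {x x' : P} {D : Finset P}

/-- bounds at the two twins -/
def st2 (x x' : P) (a a' : ℕ) (y : P) : ℕ := if y = x then a else if y = x' then a' else 0

lemma st2_update_right (hne : x ≠ x') (a b c : ℕ) :
    Function.update (st2 x x' a b) x' c = st2 x x' a c := by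
  funext y
  by_cases hy : y = x'
  · subst hy
    rw [Function.update_self]
    unfold st2
    rw [if_neg hne.symm, if_pos rfl]
  · rw [Function.update_of_ne hy]
    unfold st2
    simp only [if_neg hy]

lemma st2_update_left (a b c : ℕ) :
    Function.update (st2 x x' a b) x c = st2 x x' c b := by
  funext y
  by_cases hy : y = x
  · subst hy
    rw [Function.update_self]
    unfold st2
    rw [if_pos rfl]
  · rw [Function.update_of_ne hy]
    unfold st2
    simp only [if_neg hy]

/-- no energy below the cost of two high labels -/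
lemma ZB_st2_eq_zero (H : TwinPair i θ n0 x x') (hlx : i < lev x) (hx : x ∉ D) (hx' : x' ∉ D)
    (g : P → ℕ) {n : ℕ} (hn : n < n0) : ZB i D g (st2 x x' (θ x) (θ x + 1)) n = 0 := by
  classical
  have hlx' : i < lev x' := by rw [← lev_eq_of_up H.up]; exact hlx
  unfold ZB
  refine Finset.sum_eq_zero fun F _ => ?_
  rw [Finset.filter_eq_empty_iff.mpr, Finset.sum_empty]
  rintro e he ⟨hV, -, hβ⟩
  rw [mem_piAntidiag] at he
  have hsum : ∑ y, e y = n := he.1
  by_cases hF : x ∈ F ∨ x' ∈ F
  · -- for an element `a` of the pair in `F`, the other one `a'` costs at least `θ x`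
    have key : ∀ a a' : P, (∀ y, a < y ↔ a' < y) → a ≠ a' → a ∈ F → θ x ≤ e a' →
        ∑ y, (if a ≤ y then lev y - i else 0) + θ x ≤ ∑ y, e y := by
      intro a a' hup hne haF ha'
      have h0 : ¬ a ≤ a' := fun h => lt_irrefl a' ((hup a').mp (lt_of_le_of_ne h hne))
      have h1 : ∑ y, ((if a ≤ y then lev y - i else 0) + (if y = a' then θ x else 0)) ≤
          ∑ y, e y := by
        refine Finset.sum_le_sum fun y _ => ?_
        by_cases hay : a ≤ y
        · have hya : y ≠ a' := fun h => h0 (h ▸ hay)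
          rw [if_pos hay, if_neg hya, add_zero]
          exact sub_le_of_mem hV (hV.1 a y hay haF)
        · rw [if_neg hay, zero_add]
          split_ifs with h2
          · rw [h2]; exact ha'
          · exact Nat.zero_le _
      rw [Finset.sum_add_distrib, Finset.sum_ite_eq' univ a', if_pos (mem_univ _)] at h1
      exact h1
    have hswap : ∑ y, (if x ≤ y then lev y - i else 0) =
        ∑ y, (if x' ≤ y then lev y - i else 0) := by
      have h3 : ∀ a : P, ∑ y, (if a ≤ y then lev y - i else 0) =
          (lev a - i) + ∑ y, (if a < y then lev y - i else 0) := by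
        intro a
        rw [← Finset.add_sum_erase univ _ (mem_univ a), if_pos le_rfl,
          ← Finset.add_sum_erase univ (fun y => if a < y then lev y - i else 0) (mem_univ a),
          if_neg (lt_irrefl a), zero_add]
        congr 1
        refine Finset.sum_congr rfl fun y hy => ?_
        have hne := (mem_erase.mp hy).1
        by_cases h4 : a < y
        · rw [if_pos h4, if_pos h4.le]
        · rw [if_neg h4, if_neg]
          intro h5
          exact h4 (lt_of_le_of_ne h5 (Ne.symm hne))
      rw [h3, h3, lev_eq_of_up H.up]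
      congr 1
      exact Finset.sum_congr rfl fun y _ => by simp only [H.up y]
    have h1 : ∑ y, (if x ≤ y then lev y - i else 0) + θ x ≤ ∑ y, e y := by
      rcases hF with hF | hF
      · refine key x x' H.up H.ne hF ?_
        by_cases hx'F : x' ∈ F
        · have h2 := sub_le_of_mem hV hx'F
          rw [← lev_eq_of_up H.up] at h2
          exact H.le.trans h2
        · have h2 := hβ x' hx' hx'F
          rw [rho_of_lt hlx'] at h2
          unfold st2 at h2
          rw [if_neg H.ne.symm, if_pos rfl] at h2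
          have h3 : θ x + 1 ≤ e x' := by exact_mod_cast h2
          omega
      · rw [hswap]
        refine key x' x (fun y => (H.up y).symm) H.ne.symm hF ?_
        by_cases hxF : x ∈ F
        · exact H.le.trans (sub_le_of_mem hV hxF)
        · have h2 := hβ x hx hxF
          rw [rho_of_lt hlx] at h2
          unfold st2 at h2
          rw [if_pos rfl] at h2
          exact_mod_cast h2
    have h2 := H.costF
    omega
  · push Not at hF
    have hβx := hβ x hx hF.1
    have hβx' := hβ x' hx' hF.2
    rw [rho_of_lt hlx] at hβx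
    rw [rho_of_lt hlx'] at hβx'
    have h1 : st2 x x' (θ x) (θ x + 1) x = θ x := by unfold st2; rw [if_pos rfl]
    have h2 : st2 x x' (θ x) (θ x + 1) x' = θ x + 1 := by
      unfold st2; rw [if_neg H.ne.symm, if_pos rfl]
    rw [h1] at hβx
    rw [h2] at hβx'
    have h3 : θ x ≤ e x := by exact_mod_cast hβx
    have h4 : θ x + 1 ≤ e x' := by exact_mod_cast hβx'
    have h5 : ∑ y, ((if x < y then min (θ x + 1) (lev y - i) else 0) +
        ((if y = x then θ x else 0) + (if y = x' then θ x + 1 else 0))) ≤ ∑ y, e y := by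
      refine Finset.sum_le_sum fun y _ => ?_
      by_cases hxy : x < y
      · have hne : y ≠ x := hxy.ne'
        have hx'y := (H.up y).mp hxy
        have hne' : y ≠ x' := hx'y.ne'
        rw [if_pos hxy, if_neg hne, if_neg hne', add_zero, add_zero]
        by_cases hyF : y ∈ F
        · exact (min_le_right _ _).trans (sub_le_of_mem hV hyF)
        · refine (min_le_left _ _).trans ?_
          have h6 := hV.2.2.1 x' y hx'y.le hF.2 hyF
          rw [rho_of_lt hlx'] at h6
          have h7 := rho_le i e y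
          omega
      · rw [if_neg hxy, zero_add]
        by_cases hyx : y = x
        · subst hyx
          rw [if_pos rfl, if_neg H.ne, add_zero]
          exact h3
        · rw [if_neg hyx, zero_add]
          by_cases hyx' : y = x'
          · subst hyx'
            rw [if_pos rfl]
            exact h4
          · rw [if_neg hyx']
            exact Nat.zero_le _
    rw [Finset.sum_add_distrib, Finset.sum_add_distrib, Finset.sum_ite_eq' univ x,
      Finset.sum_ite_eq' univ x', if_pos (mem_univ _), if_pos (mem_univ _)] at h5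
    have h6 := H.costT
    omega

/-- the twin step -/
theorem dvd_ZB_twin_step (H : TwinPair i θ n0 x x') (hlx : i < lev x) (hx : x ∉ D) (hx' : x' ∉ D)
    (hmin : ∀ y < x', y ∈ D)
    (hlow : ∀ E : Finset P, E = D ∪ dnf x ∨ E = D ∪ dnf x' → ∀ a c, a ≤ c → c ∈ E → a ∈ E)
    (hlev : ∀ E : Finset P, E = D ∪ dnf x ∨ E = D ∪ dnf x' → ∀ a ∈ E, i < lev a)
    (hc2 : ∀ y ≤ x, y ∉ D → ∀ w, y ⋖ w → ¬ w ≤ x → θ x ≤ θ w + 1)
    (hBC : ∀ E : Finset P, E = D ∪ dnf x ∨ E = D ∪ dnf x' →
      ∀ β : P → ℕ, (∀ y, y ∉ E → β y ≤ θ y) → ∀ n < n0, p ∣ ZB i E 0 β n)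
    (n : ℕ) (hn : n < n0) : p ∣ ZB i D 0 0 n := by
  classical
  have hlx' : i < lev x' := by rw [← lev_eq_of_up H.up]; exact hlx
  have hs1 : ∀ a b, st2 x x' a b x = a := fun a b => by unfold st2; rw [if_pos rfl]
  have hs2 : ∀ a b, st2 x x' a b x' = b := fun a b => by
    unfold st2; rw [if_neg H.ne.symm, if_pos rfl]
  have hs3 : ∀ a b y, y ≠ x → y ≠ x' → st2 x x' a b y = 0 := fun a b y h1 h2 => by
    unfold st2; rw [if_neg h1, if_neg h2]
  have hxx' : ¬ x ≤ x' := fun h => hx (hmin x (lt_of_le_of_ne h H.ne))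
  have hx'x : ¬ x' ≤ x := fun h => by
    have h1 : x' < x := lt_of_le_of_ne h H.ne.symm
    exact lt_irrefl x ((H.up x).mpr h1)
  have stepA : ∀ k ≤ θ x, p ∣ ZB i D 0 (st2 x x' k (k + 1)) n → p ∣ ZB i D 0 (st2 x x' k k) n := by
    intro k hk h
    refine dvd_ZB_step_down (st2 x x' k k) x' hx' hlx' p n ?_ ?_
    · rw [hs2, st2_update_right H.ne]
      exact h
    · intro g' hG
      obtain ⟨g1, g2, g3, g4, g5⟩ := hG
      rw [hs2] at g2 g3
      have hE : D ∪ dnf x' = D ∪ dnf x ∨ D ∪ dnf x' = D ∪ dnf x' := Or.inr rfl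
      refine dvd_ZB_shift_lt _ (hlow _ hE) (hlev _ hE) g5 p n0 (fun n hn => ?_) n hn
      rw [ZB_redundant (β := st2 x x' k 0)]
      · refine hBC _ hE _ ?_ n hn
        intro y hy
        rw [mem_union, mem_dnf, not_or] at hy
        by_cases hyx : y = x
        · subst hyx; rw [hs1]; exact hk
        · rw [hs3 k 0 y hyx (fun h => hy.2 h.le)]
          exact Nat.zero_le _
      · intro y hy
        rw [mem_union, mem_dnf, not_or] at hy
        refine le_trans ?_ (le_bg _ _ _ y)
        by_cases hyx : y = x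
        · subst hyx; rw [hs1, hs1]
        · rw [hs3 k 0 y hyx (fun h => hy.2 h.le)]
          exact Nat.zero_le _
      · intro y hy
        rw [mem_union, mem_dnf, not_or] at hy
        have hdall : ∀ d ∈ D ∪ dnf x', d ∈ D ∨ d = x' := by
          intro d hd
          rw [mem_union, mem_dnf] at hd
          rcases hd with hd | hd
          · exact Or.inl hd
          · rcases eq_or_lt_of_le hd with h1 | h1
            · exact Or.inr h1
            · exact Or.inl (hmin d h1)
        by_cases hxy : x < y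
        · right
          refine ⟨x, hxy.le, ?_, ?_⟩
          · rw [mem_union, mem_dnf]
            rintro (h1 | h1)
            · exact hx h1
            · exact hxx' h1
          · rw [hs1]
            refine bg_le ?_ ?_
            · rw [hs3 k k y hxy.ne' (fun h => hy.2 h.le)]
              exact Nat.zero_le _
            · intro d hd _
              rcases hdall d hd with h1 | h1
              · rw [g1 d h1]; exact Nat.zero_le _
              · rw [h1, g2]
        · left
          refine bg_le ?_ ?_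
          · by_cases hyx : y = x
            · subst hyx; rw [hs1, hs1]
            · rw [hs3 k k y hyx (fun h => hy.2 h.le)]
              exact Nat.zero_le _
          · intro d hd hdy
            rcases hdall d hd with h1 | h1
            · rw [g1 d h1]; exact Nat.zero_le _
            · exfalso
              rw [h1] at hdy
              exact hxy ((H.up y).mpr hdy.1)
  have stepB : ∀ k, k + 1 ≤ θ x → p ∣ ZB i D 0 (st2 x x' (k + 1) (k + 1)) n →
      p ∣ ZB i D 0 (st2 x x' k (k + 1)) n := by
    intro k hk h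
    refine dvd_ZB_step_down (st2 x x' k (k + 1)) x hx hlx p n ?_ ?_
    · rw [hs1, st2_update_left]
      exact h
    · intro g' hG
      obtain ⟨g1, g2, g3, g4, g5⟩ := hG
      rw [hs1] at g2 g3
      have hE : D ∪ dnf x = D ∪ dnf x ∨ D ∪ dnf x = D ∪ dnf x' := Or.inl rfl
      refine dvd_ZB_shift_lt _ (hlow _ hE) (hlev _ hE) g5 p n0 (fun n hn => ?_) n hn
      refine hBC _ hE _ ?_ n hn
      intro y hy
      rw [mem_union, mem_dnf, not_or] at hy
      have hyx : y ≠ x := fun h => hy.2 h.le
      by_cases hyx' : y = x'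
      · subst hyx'
        refine bg_le ?_ ?_
        · rw [hs2, H.eq]; exact hk
        · intro d hd hdy
          have hdD := hmin d hdy.1
          rw [g1 d hdD]; exact Nat.zero_le _
      · refine bg_le ?_ ?_
        · rw [hs3 _ _ y hyx hyx']; exact Nat.zero_le _
        · intro d hd hdy
          by_cases hdD : d ∈ D
          · rw [g1 d hdD]; exact Nat.zero_le _
          · have hdx : d ≤ x := by
              rcases mem_union.mp hd with h1 | h1
              · exact absurd h1 hdD
              · exact mem_dnf.mp h1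
            have h1 := g3 d hdx
            have h2 := hc2 d hdx hdD y hdy hy.2
            omega
  have main : ∀ s k, k + s = θ x → p ∣ ZB i D 0 (st2 x x' k k) n := by
    intro s
    induction s with
    | zero =>
      intro k hk
      refine stepA k (by omega) ?_
      have hk' : k = θ x := by omega
      rw [hk', ZB_st2_eq_zero H hlx hx hx' 0 hn]
      exact dvd_zero _
    | succ s ih =>
      intro k hk
      exact stepA k (by omega) (stepB k (by omega) (ih (k + 1) (by omega)))
  have h0 := main (θ x) 0 (by omega)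
  have h1 : ZB i D 0 (st2 x x' 0 0) n = ZB i D 0 0 n := by
    refine ZB_congr (fun _ _ => rfl) (fun y _ => ?_) n
    unfold st2
    split_ifs <;> rfl
  rwa [h1] at h0

end Step

open Classical in
/-- number of unbroken twin pairs -/
noncomputable def ubr (Tw : Finset (P × P)) (D : Finset P) : ℕ :=
  (Tw.filter (fun t => t.1 ∉ D ∧ t.2 ∉ D)).card

lemma ubr_mono (Tw : Finset (P × P)) {D E : Finset P} (h : D ⊆ E) : ubr Tw E ≤ ubr Tw D := by
  classical
  unfold ubr
  refine Finset.card_le_card fun t ht => ?_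
  rw [mem_filter] at ht ⊢
  exact ⟨ht.1, fun h1 => ht.2.1 (h h1), fun h1 => ht.2.2 (h h1)⟩

lemma ubr_lt {Tw : Finset (P × P)} {D E : Finset P} (h : D ⊆ E) {t : P × P} (ht : t ∈ Tw)
    (h1 : t.1 ∉ D ∧ t.2 ∉ D) (h2 : t.1 ∈ E ∨ t.2 ∈ E) : ubr Tw E < ubr Tw D := by
  classical
  unfold ubr
  refine Finset.card_lt_card ?_
  rw [Finset.ssubset_iff_of_subset]
  · refine ⟨t, mem_filter.mpr ⟨ht, h1⟩, fun h3 => ?_⟩
    rw [mem_filter] at h3
    rcases h2 with h2 | h2
    · exact h3.2.1 h2
    · exact h3.2.2 h2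
  · intro t ht
    rw [mem_filter] at ht ⊢
    exact ⟨ht.1, fun h1 => ht.2.1 (h h1), fun h1 => ht.2.2 (h h1)⟩

/-- the twin lemma -/
theorem dvd_ZB_bounds_twins (i : ℕ) (p : ℤ[X]) (n0 : ℕ) (DD : Set (Finset P)) (θ : P → ℕ)
    (Tw : Finset (P × P))
    (hlow : ∀ D ∈ DD, ∀ x y, x ≤ y → y ∈ D → x ∈ D) (hlev : ∀ D ∈ DD, ∀ x ∈ D, i < lev x)
    (hθ : ∀ x, 1 ≤ θ x → i < lev x)
    (c0 : ∀ D ∈ DD, (∀ t ∈ Tw, t.1 ∈ D ∨ t.2 ∈ D) → ∀ n < n0, p ∣ ZB i D 0 0 n)
    (c1 : ∀ D ∈ DD, ∀ x, x ∉ D → 1 ≤ θ x → D ∪ dnf x ∈ DD)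
    (c2 : ∀ D ∈ DD, ∀ x, x ∉ D → 1 ≤ θ x → ∀ y ≤ x, y ∉ D → ∀ x', y ⋖ x' → ¬ x' ≤ x →
      θ x ≤ θ x' + 1)
    (htw : ∀ t ∈ Tw, TwinPair i θ n0 t.1 t.2)
    (hmin : ∀ t ∈ Tw, ∀ D ∈ DD, ∀ y < t.2, y ∈ D) :
    ∀ D ∈ DD, ∀ β : P → ℕ, (∀ x, x ∉ D → β x ≤ θ x) → ∀ n < n0, p ∣ ZB i D 0 β n := by
  classical
  have hBC : ∀ s : ℕ, (∀ D ∈ DD, ubr Tw D ≤ s → ∀ n < n0, p ∣ ZB i D 0 0 n) →
      ∀ D ∈ DD, ubr Tw D ≤ s → ∀ β : P → ℕ, (∀ x, x ∉ D → β x ≤ θ x) → ∀ n < n0,
        p ∣ ZB i D 0 β n := by
    intro s hs D hD hu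
    refine dvd_ZB_bounds_lt i p n0 {D | D ∈ DD ∧ ubr Tw D ≤ s} θ (fun D hD => hlow D hD.1)
      (fun D hD => hlev D hD.1) hθ (fun D hD => hs D hD.1 hD.2) ?_
      (fun D hD => c2 D hD.1) D ⟨hD, hu⟩
    intro D hD x hx hθx
    exact ⟨c1 D hD.1 x hx hθx, (ubr_mono Tw subset_union_left).trans hD.2⟩
  have main : ∀ s : ℕ, ∀ D ∈ DD, ubr Tw D ≤ s → ∀ n < n0, p ∣ ZB i D 0 0 n := by
    intro s
    induction s with
    | zero =>
      intro D hD hu n hn
      refine c0 D hD ?_ n hn
      intro t ht
      by_contra hcon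
      push Not at hcon
      have h1 : t ∈ Tw.filter (fun t => t.1 ∉ D ∧ t.2 ∉ D) := mem_filter.mpr ⟨ht, hcon⟩
      have h2 : 0 < ubr Tw D := Finset.card_pos.mpr ⟨t, h1⟩
      omega
    | succ s ih =>
      intro D hD hu n hn
      by_cases hall : ∀ t ∈ Tw, t.1 ∈ D ∨ t.2 ∈ D
      · exact c0 D hD hall n hn
      · push Not at hall
        obtain ⟨t, ht, hx, hx'⟩ := hall
        have H := htw t ht
        have h1 : 1 ≤ θ t.2 := by rw [H.eq]; exact H.one_le
        have hDx := c1 D hD t.1 hx H.one_le
        have hDx' := c1 D hD t.2 hx' h1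
        have hin : ∀ E : Finset P, E = D ∪ dnf t.1 ∨ E = D ∪ dnf t.2 → E ∈ DD ∧ ubr Tw E ≤ s := by
          rintro E (rfl | rfl)
          · refine ⟨hDx, ?_⟩
            have := ubr_lt (E := D ∪ dnf t.1) subset_union_left ht ⟨hx, hx'⟩
              (Or.inl (mem_union_right _ (mem_dnf.mpr le_rfl)))
            omega
          · refine ⟨hDx', ?_⟩
            have := ubr_lt (E := D ∪ dnf t.2) subset_union_left ht ⟨hx, hx'⟩
              (Or.inr (mem_union_right _ (mem_dnf.mpr le_rfl)))
            omega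
        exact dvd_ZB_twin_step H (hθ _ H.one_le) hx hx' (hmin t ht D hD)
          (fun E hE => hlow E (hin E hE).1) (fun E hE => hlev E (hin E hE).1)
          (c2 D hD t.1 hx H.one_le) (fun E hE => hBC s ih E (hin E hE).1 (hin E hE).2) n hn
  intro D hD β hβ n hn
  exact hBC _ (main (ubr Tw D)) D hD le_rfl β hβ n hn

end Pool.Agent.GaussPoset
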