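import Pool.Agent.W_448tw_h76.TwB

/-!
The window sum as good labels plus bad configurations, in general form; the far window
theorem with blockers (FW+) and with second thresholds (FW2).
-/

namespace Pool.Agent.GaussPoset

set_option linter.unusedSectionVars false

open Polynomial Finset

universe u

variable {P : Type u} [Fintype P] [PartialOrder P] [DecidableEq P]

/-- the labels on `R` -/
def lbl (R : Finset P) (e : P → ℕ) (x : P) : ℕ := if x ∈ R then e x else 0

lemma lbl_of {R : Finset P} {e : P → ℕ} {x : P} (h : x ∈ R) : lbl R e x = e x := if_pos h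

lemma lbl_off {R : Finset P} {e : P → ℕ} {x : P} (h : x ∉ R) : lbl R e x = 0 := if_neg h

open Classical in
/-- the part of the window sum with bad labels on `R` or an element of `R` in the filter -/
noncomputable def RB (i : ℕ) (R : Finset P) (bad : (P → ℕ) → Prop) (n : ℕ) : ℤ[X] :=
  ∑ F : Finset P, ∑ _e ∈ ((univ : Finset P).piAntidiag n).filter
    (fun e => Vd i e F ∧ ((∃ x ∈ R, x ∈ F) ∨ bad (lbl R e))), (X : ℤ[X]) ^ F.card

/-- the part with good labels is divisible -/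
theorem dvd_Z_sub_RB {i : ℕ} {R : Finset P} (bad : (P → ℕ) → Prop) (p : ℤ[X]) (n : ℕ)
    (hcl : ∀ g : P → ℕ, (∀ x, x ∉ R → g x = 0) → ¬ bad g → p ∣ ZB i R g 0 n) :
    p ∣ Z P i n - RB i R bad n := by
  classical
  let Gs : Finset (P → ℕ) := Fintype.piFinset (fun _ => range (n + 1))
  let Gg : (P → ℕ) → Prop := fun g => (∀ x, x ∉ R → g x = 0) ∧ ¬ bad g
  have key : Z P i n = RB i R bad n + ∑ g ∈ Gs, if Gg g then ZB i R g 0 n else 0 := by
    have h1 : ∀ g ∈ Gs, (if Gg g then ZB i R g 0 n else 0) = ∑ F : Finset P,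
        ∑ _e ∈ ((univ : Finset P).piAntidiag n).filter (fun e => Gg g ∧ Cst i R g 0 e F),
          (X : ℤ[X]) ^ F.card := by
      intro g _
      split_ifs with hg
      · unfold ZB
        refine Finset.sum_congr rfl fun F _ => ?_
        refine Finset.sum_congr (Finset.filter_congr fun e _ => ?_) (fun _ _ => rfl)
        exact ⟨fun h => ⟨hg, h⟩, fun h => h.2⟩
      · symm
        refine Finset.sum_eq_zero fun F _ => ?_
        rw [Finset.filter_eq_empty_iff.mpr (fun e _ h => hg h.1), Finset.sum_empty]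
    rw [Finset.sum_congr rfl h1, Finset.sum_comm, Z_eq_sum, Finset.sum_comm]
    unfold RB
    rw [← Finset.sum_add_distrib]
    refine Finset.sum_congr rfl fun F _ => ?_
    rw [← Finset.sum_filter]
    have hmaps : ∀ e ∈ ((univ : Finset P).piAntidiag n).filter
        (fun e => Vd i e F ∧ ¬ ((∃ x ∈ R, x ∈ F) ∨ bad (lbl R e))), lbl R e ∈ Gs := by
      intro e he
      rw [mem_filter, mem_piAntidiag] at he
      rw [Fintype.mem_piFinset]
      intro x
      rw [mem_range]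
      have h5 : e x ≤ ∑ y, e y := Finset.single_le_sum (fun y _ => Nat.zero_le _) (mem_univ x)
      have h6 : ∑ y, e y = n := he.1.1
      unfold lbl
      split_ifs <;> omega
    have h2 : ∑ g ∈ Gs, ∑ _e ∈ ((univ : Finset P).piAntidiag n).filter
        (fun e => Gg g ∧ Cst i R g 0 e F), (X : ℤ[X]) ^ F.card =
        ∑ _e ∈ ((univ : Finset P).piAntidiag n).filter
        (fun e => Vd i e F ∧ ¬ ((∃ x ∈ R, x ∈ F) ∨ bad (lbl R e))), (X : ℤ[X]) ^ F.card := by
      refine Eq.trans ?_ (Finset.sum_fiberwise_of_maps_to hmaps (fun _ => (X : ℤ[X]) ^ F.card))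
      refine Finset.sum_congr rfl fun g _ => ?_
      refine Finset.sum_congr ?_ (fun _ _ => rfl)
      ext e
      simp only [mem_filter]
      constructor
      · rintro ⟨h5, ⟨h6, h7⟩, h8, h9, -⟩
        have h10 : lbl R e = g := by
          funext x
          by_cases hx : x ∈ R
          · rw [lbl_of hx]; exact (h9 x hx).2
          · rw [lbl_off hx]; exact (h6 x hx).symm
        refine ⟨⟨h5, h8, ?_⟩, h10⟩
        rintro (⟨x, hx, hxF⟩ | hb)
        · exact (h9 x hx).1 hxF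
        · rw [h10] at hb; exact h7 hb
      · rintro ⟨⟨h5, h6, h7⟩, h8⟩
        push Not at h7
        refine ⟨h5, ⟨?_, ?_⟩, h6, ?_, ?_⟩
        · intro x hx
          rw [← h8]; exact lbl_off hx
        · rw [← h8]; exact h7.2
        · intro x hx
          exact ⟨h7.1 x hx, by rw [← h8, lbl_of hx]⟩
        · intro x _ hxF
          simpa using h6.2.1 x hxF
    rw [h2, ← Finset.filter_filter, ← Finset.filter_filter]
    exact (Finset.sum_filter_add_sum_filter_not _ _ _).symm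
  rw [key, add_sub_cancel_left]
  refine Finset.dvd_sum fun g _ => ?_
  split_ifs with hg
  · exact hcl g hg.1 hg.2
  · exact dvd_zero p

/-- no bad configurations -/
lemma RB_eq_zero {i : ℕ} {R : Finset P} {bad : (P → ℕ) → Prop} {n : ℕ}
    (h : ∀ e F, Vd i e F → ((∃ x ∈ R, x ∈ F) ∨ bad (lbl R e)) → ∑ x, e x = n → False) :
    RB i R bad n = 0 := by
  classical
  unfold RB
  refine Finset.sum_eq_zero fun F _ => ?_
  rw [Finset.filter_eq_empty_iff.mpr, Finset.sum_empty]
  rintro e he ⟨hV, hb⟩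
  rw [mem_piAntidiag] at he
  exact h e F hV hb he.1

/-- the bound `k` at `z` -/
def sgz (z : P) (k : ℕ) (x : P) : ℕ := if x = z then k else 0

lemma sgz_self (z : P) (k : ℕ) : sgz z k z = k := if_pos rfl

lemma sgz_ne {z x : P} (k : ℕ) (h : x ≠ z) : sgz z k x = 0 := if_neg h

/-- the window sum over configurations in which `z` has label at least `k` -/
noncomputable def ZD (i : ℕ) (z : P) (k n : ℕ) : ℤ[X] := ZB i ∅ 0 (sgz z k) n

lemma cst_single_iff {i : ℕ} {z : P} {k : ℕ} (hz : i < lev z) (e : P → ℕ) (F : Finset P) :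
    Cst i ∅ 0 (sgz z k) e F ↔ Vd i e F ∧ (z ∈ F ∨ k ≤ e z) := by
  unfold Cst
  refine and_congr_right fun hV => ⟨fun h => ?_, fun h => ⟨fun x hx => ?_, fun x _ hxF => ?_⟩⟩
  · by_cases hzF : z ∈ F
    · exact Or.inl hzF
    · right
      have := h.2 z (Finset.notMem_empty z) hzF
      rw [sgz_self, rho_of_lt hz] at this
      exact_mod_cast this
  · exact absurd hx (Finset.notMem_empty x)
  · by_cases hxz : x = z
    · subst hxz
      rw [sgz_self, rho_of_lt hz]
      exact_mod_cast h.resolve_left hxF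
    · rw [sgz_ne k hxz]
      simpa using hV.2.1 x hxF

open Classical in
lemma ZD_eq {i : ℕ} {z : P} {k n : ℕ} (hz : i < lev z) :
    ZD i z k n = ∑ F : Finset P, ∑ _e ∈ ((univ : Finset P).piAntidiag n).filter
      (fun e => Vd i e F ∧ (z ∈ F ∨ k ≤ e z)), (X : ℤ[X]) ^ F.card := by
  unfold ZD ZB
  refine Finset.sum_congr rfl fun F _ => ?_
  refine Finset.sum_congr (Finset.filter_congr fun e _ => ?_) (fun _ _ => rfl)
  exact cst_single_iff hz e F

/-- exact evaluation of the bad part: blockers `T1` (kept as dangerous sums), cheapest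
configurations of the elements of `T2` -/
theorem RB_eval {i : ℕ} {R : Finset P} {bad : (P → ℕ) → Prop} {n : ℕ} (h : P → ℕ)
    (T1 T2 : Finset P) (hlev : ∀ z ∈ T1, i < lev z) (h2 : ∀ z ∈ T2, 1 ≤ h z ∧ h z ≤ lev z - i)
    (hb1 : ∀ z ∈ T1, ∀ e F, Vd i e F → ∑ x, e x = n → Dgz h e F z →
      (∃ x ∈ R, x ∈ F) ∨ bad (lbl R e))
    (hb2 : ∀ z ∈ T2, cst i h z = n → bad (lbl R (ez i h z)))
    (hall : ∀ e F, Vd i e F → ∑ x, e x = n → ((∃ x ∈ R, x ∈ F) ∨ bad (lbl R e)) →
      (∃ z ∈ T1, Dgz h e F z) ∨ ∃ z ∈ T2, e = ez i h z)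
    (hone : ∀ z ∈ T1, ∀ z' ∈ T1, z ≠ z' → ∀ e F, Vd i e F → ∑ x, e x = n → Dgz h e F z →
      Dgz h e F z' → False)
    (hsep : ∀ z ∈ T1, ∀ z' ∈ T2, cst i h z' = n → ∀ F, Vd i (ez i h z') F →
      ¬ Dgz h (ez i h z') F z) :
    RB i R bad n = ∑ z ∈ T1, ZD i z (h z) n +
      ∑ z ∈ T2.filter (fun z => cst i h z = n),
      (by classical exact if Adm i (ez i h z) then
        (X : ℤ[X]) ^ (nf i (ez i h z)) * (1 + X) ^ (Pk i (ez i h z)).card else 0) := by
  classical
  have h3 : ∀ z ∈ T2.filter (fun z => cst i h z = n), (if Adm i (ez i h z) then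
        (X : ℤ[X]) ^ (nf i (ez i h z)) * (1 + X) ^ (Pk i (ez i h z)).card else 0) =
        ∑ F : Finset P, if Vd i (ez i h z) F then (X : ℤ[X]) ^ F.card else 0 := by
    intro z _
    rw [sum_vd]
  rw [Finset.sum_congr rfl h3, Finset.sum_comm,
    Finset.sum_congr rfl (fun z hz => ZD_eq (hlev z hz)), Finset.sum_comm]
  unfold RB
  rw [← Finset.sum_add_distrib]
  refine Finset.sum_congr rfl fun F _ => ?_
  rw [← Finset.sum_filter]
  -- the first part
  have hA : ∑ z ∈ T1, ∑ _e ∈ ((univ : Finset P).piAntidiag n).filter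
      (fun e => Vd i e F ∧ (z ∈ F ∨ h z ≤ e z)), (X : ℤ[X]) ^ F.card =
      ∑ _e ∈ ((univ : Finset P).piAntidiag n).filter
      (fun e => Vd i e F ∧ ∃ z ∈ T1, Dgz h e F z), (X : ℤ[X]) ^ F.card := by
    rw [← Finset.sum_biUnion]
    · refine Finset.sum_congr ?_ (fun _ _ => rfl)
      ext e
      simp only [mem_biUnion, mem_filter]
      constructor
      · rintro ⟨z, hz, h5, h6, h7⟩
        exact ⟨h5, h6, z, hz, h7⟩
      · rintro ⟨h5, h6, z, hz, h7⟩
        exact ⟨z, hz, h5, h6, h7⟩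
    · intro z hz z' hz' hne
      simp only [Function.onFun]
      rw [Finset.disjoint_left]
      intro e he he'
      rw [mem_filter, mem_piAntidiag] at he he'
      exact hone z hz z' hz' hne e F he.2.1 he.1.1 he.2.2 he'.2.2
  have hB : ∑ _z ∈ (T2.filter (fun z => cst i h z = n)).filter (fun z => Vd i (ez i h z) F),
      (X : ℤ[X]) ^ F.card = ∑ _e ∈ ((univ : Finset P).piAntidiag n).filter
      (fun e => (Vd i e F ∧ ((∃ x ∈ R, x ∈ F) ∨ bad (lbl R e))) ∧ ¬ ∃ z ∈ T1, Dgz h e F z),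
      (X : ℤ[X]) ^ F.card := by
    refine Finset.sum_bij (fun z _ => ez i h z) ?_ ?_ ?_ (fun _ _ => rfl)
    · intro z hz
      rw [mem_filter, mem_filter] at hz
      rw [mem_filter, mem_piAntidiag]
      refine ⟨⟨hz.1.2, fun _ _ => mem_univ _⟩, ⟨hz.2, Or.inr (hb2 z hz.1.1 hz.1.2)⟩, ?_⟩
      rintro ⟨z', hz', hd⟩
      exact hsep z' hz' z hz.1.1 hz.1.2 F hz.2 hd
    · intro z hz z' hz' he
      rw [mem_filter, mem_filter] at hz hz'
      exact ez_inj (h2 z hz.1.1).1 (h2 z hz.1.1).2 (h2 z' hz'.1.1).1 (h2 z' hz'.1.1).2 he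
    · intro e he
      rw [mem_filter, mem_piAntidiag] at he
      obtain ⟨⟨he1, -⟩, ⟨hV, hb⟩, hn1⟩ := he
      rcases hall e F hV he1 hb with h5 | ⟨z, hz, rfl⟩
      · exact absurd h5 hn1
      · refine ⟨z, ?_, rfl⟩
        rw [mem_filter, mem_filter]
        exact ⟨⟨hz, he1⟩, hV⟩
  rw [hA, hB]
  have h5 : ((univ : Finset P).piAntidiag n).filter
      (fun e => Vd i e F ∧ ∃ z ∈ T1, Dgz h e F z) =
      (((univ : Finset P).piAntidiag n).filter
      (fun e => Vd i e F ∧ ((∃ x ∈ R, x ∈ F) ∨ bad (lbl R e)))).filter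
      (fun e => ∃ z ∈ T1, Dgz h e F z) := by
    rw [Finset.filter_filter]
    refine Finset.filter_congr fun e he => ?_
    rw [mem_piAntidiag] at he
    constructor
    · rintro ⟨h6, z, hz, h7⟩
      exact ⟨⟨h6, hb1 z hz e F h6 he.1 h7⟩, z, hz, h7⟩
    · rintro ⟨⟨h6, -⟩, h7⟩
      exact ⟨h6, h7⟩
  have h6 : ((univ : Finset P).piAntidiag n).filter
      (fun e => (Vd i e F ∧ ((∃ x ∈ R, x ∈ F) ∨ bad (lbl R e))) ∧ ¬ ∃ z ∈ T1, Dgz h e F z) =
      (((univ : Finset P).piAntidiag n).filter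
      (fun e => Vd i e F ∧ ((∃ x ∈ R, x ∈ F) ∨ bad (lbl R e)))).filter
      (fun e => ¬ ∃ z ∈ T1, Dgz h e F z) := by
    rw [Finset.filter_filter]
  rw [h5, h6]
  exact (Finset.sum_filter_add_sum_filter_not _ _ _).symm

/-- the explicit leading terms -/
noncomputable def Lt (i : ℕ) (h : P → ℕ) (z : P) : ℤ[X] :=
  (X : ℤ[X]) ^ (below P i + nst i h z) * (1 + X) ^ ((lv P i).card + nab (i + h z) z - nab i z)

lemma lead_eq {i : ℕ} {h : P → ℕ} {z : P} (hgr : GradedBelow P) (h1 : 1 ≤ h z)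
    (h2 : h z ≤ lev z - i) : (by classical exact if Adm i (ez i h z) then
        (X : ℤ[X]) ^ (nf i (ez i h z)) * (1 + X) ^ (Pk i (ez i h z)).card else 0) = Lt i h z := by
  classical
  rw [if_pos (adm_ez hgr h2 h1), nf_ez hgr h2 h1]
  have h3 := pk_ez hgr h2 h1
  have h4 : (Pk i (ez i h z)).card = (lv P i).card + nab (i + h z) z - nab i z := by omega
  rw [h4, Lt]

/-- FW+ : far window theorem with blockers `R1`, at the single energy `n` -/
theorem far_plus {i : ℕ} {R : Finset P} {h : P → ℕ} {n : ℕ} (p : ℤ[X]) (R1 : Finset P)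
    (hgr : GradedBelow P) (hlev : ∀ x ∈ R, i < lev x) (hR1 : R1 ⊆ bdR R)
    (hcl : ∀ g : P → ℕ, (∀ x, x ∉ R → g x = 0) → (∀ z ∈ bdR R, g z < h z) → p ∣ ZB i R g 0 n)
    (h1 : ∀ z ∈ bdR R, z ∉ R1 → 1 ≤ h z ∧ h z ≤ lev z - i)
    (hn : ∀ z ∈ bdR R, z ∉ R1 → n ≤ cst i h z)
    (hpair : ∀ z ∈ R1, ∀ z' ∈ bdR R, z' ≠ z → n < ∑ x, max (ez i h z x) (ez i h z' x)) :
    p ∣ Z P i n - (∑ z ∈ R1, ZD i z (h z) n +
      ∑ z ∈ (bdR R \ R1).filter (fun z => cst i h z = n), Lt i h z) := by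
  classical
  have hpair' : ∀ z ∈ R1, ∀ z' ∈ bdR R, z' ≠ z → ∀ e F, Vd i e F → ∑ x, e x = n →
      Dgz h e F z → Dgz h e F z' → False := by
    intro z hz z' hz' hne e F hV hs hd hd'
    have h2 := ez_le hV (hlev z (mem_filter.mp (hR1 hz)).1) hd
    have h3 := ez_le hV (hlev z' (mem_filter.mp hz').1) hd'
    have h4 : ∑ x, max (ez i h z x) (ez i h z' x) ≤ ∑ x, e x :=
      Finset.sum_le_sum fun x _ => max_le (h2 x) (h3 x)
    have := hpair z hz z' hz' hne
    omega
  have hev := RB_eval (i := i) (R := R) (bad := fun g => ∃ z ∈ bdR R, h z ≤ g z) (n := n) h R1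
    (bdR R \ R1) (fun z hz => hlev z (mem_filter.mp (hR1 hz)).1) ?_ ?_ ?_ ?_ ?_ ?_
  · have hbadgood : p ∣ Z P i n - RB i R (fun g => ∃ z ∈ bdR R, h z ≤ g z) n := by
      refine dvd_Z_sub_RB _ p n fun g hg0 hg => hcl g hg0 fun z hz => ?_
      by_contra hcon
      exact hg ⟨z, hz, not_lt.mp hcon⟩
    rw [hev] at hbadgood
    have h6 : ∑ z ∈ (bdR R \ R1).filter (fun z => cst i h z = n), Lt i h z =
        ∑ z ∈ (bdR R \ R1).filter (fun z => cst i h z = n),
        (if Adm i (ez i h z) then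
        (X : ℤ[X]) ^ (nf i (ez i h z)) * (1 + X) ^ (Pk i (ez i h z)).card else 0) := by
      refine Finset.sum_congr rfl fun z hz => ?_
      rw [mem_filter, mem_sdiff] at hz
      have h7 := h1 z hz.1.1 hz.1.2
      exact (lead_eq hgr h7.1 h7.2).symm
    rw [h6]
    exact hbadgood
  · intro z hz
    rw [mem_sdiff] at hz
    exact h1 z hz.1 hz.2
  · intro z hz e F _ _ hd
    rcases hd with hd | hd
    · exact Or.inl ⟨z, (mem_filter.mp (hR1 hz)).1, hd⟩
    · refine Or.inr ⟨z, hR1 hz, ?_⟩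
      rw [lbl_of (mem_filter.mp (hR1 hz)).1]
      exact hd
  · intro z hz _
    rw [mem_sdiff] at hz
    refine ⟨z, hz.1, ?_⟩
    rw [lbl_of (mem_filter.mp hz.1).1, ez_self (h1 z hz.1 hz.2).2]
  · intro e F hV hs hb
    have hd : ∃ z ∈ bdR R, Dgz h e F z := by
      by_contra hcon
      push Not at hcon
      have h2 := not_mem_of_not_dg hlev hV hcon
      rcases hb with ⟨x, hx, hxF⟩ | ⟨z, hz, hz2⟩
      · exact h2 x hx hxF
      · refine hcon z hz (Or.inr ?_)
        rwa [lbl_of (mem_filter.mp hz).1] at hz2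
    obtain ⟨z, hz, hd⟩ := hd
    by_cases hz1 : z ∈ R1
    · exact Or.inl ⟨z, hz1, hd⟩
    · right
      refine ⟨z, mem_sdiff.mpr ⟨hz, hz1⟩, ?_⟩
      have h4 : ∀ x, ez i h z x ≤ e x := ez_le hV (hlev z (mem_filter.mp hz).1) hd
      have h6 : cst i h z ≤ n := by
        rw [← hs]; exact Finset.sum_le_sum fun x _ => h4 x
      have h7 : cst i h z = n := le_antisymm h6 (hn z hz hz1)
      funext x
      have h9 : ∑ x, ez i h z x = ∑ x, e x := by
        rw [hs]; exact h7
      exact ((Finset.sum_eq_sum_iff_of_le (fun x _ => h4 x)).mp h9 x (mem_univ x)).symm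
  · intro z hz z' hz' hne e F hV hs hd hd'
    exact hpair' z hz z' (hR1 hz') hne.symm e F hV hs hd hd'
  · intro z hz z' hz' hc F hV hd
    rw [mem_sdiff] at hz'
    have hne : z' ≠ z := fun h => hz'.2 (h ▸ hz)
    refine hpair' z hz z' hz'.1 hne _ F hV hc hd (Or.inr ?_)
    rw [ez_self (h1 z' hz'.1 hz'.2).2]

/-- FW2, abstract: if the only bad configurations of energy `n` are the cheapest ones of the
elements of `T` -/
theorem far_bad {i : ℕ} {R : Finset P} {bad : (P → ℕ) → Prop} {n : ℕ} (h : P → ℕ) (p : ℤ[X])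
    (T : Finset P) (hgr : GradedBelow P) (h2 : ∀ z ∈ T, 1 ≤ h z ∧ h z ≤ lev z - i)
    (hcl : ∀ g : P → ℕ, (∀ x, x ∉ R → g x = 0) → ¬ bad g → p ∣ ZB i R g 0 n)
    (hb2 : ∀ z ∈ T, cst i h z = n → bad (lbl R (ez i h z)))
    (hall : ∀ e F, Vd i e F → ∑ x, e x = n → ((∃ x ∈ R, x ∈ F) ∨ bad (lbl R e)) →
      ∃ z ∈ T, e = ez i h z) :
    p ∣ Z P i n - ∑ z ∈ T.filter (fun z => cst i h z = n), Lt i h z := by
  classical
  have hev := RB_eval (i := i) (R := R) (bad := bad) (n := n) h ∅ T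
    (fun z hz => absurd hz (Finset.notMem_empty z)) h2
    (fun z hz => absurd hz (Finset.notMem_empty z)) hb2
    (fun e F h3 h4 h5 => Or.inr (hall e F h3 h4 h5))
    (fun z hz => absurd hz (Finset.notMem_empty z)) (fun z hz => absurd hz (Finset.notMem_empty z))
  have h3 := dvd_Z_sub_RB bad p n hcl
  rw [hev, Finset.sum_empty, zero_add] at h3
  have h6 : ∑ z ∈ T.filter (fun z => cst i h z = n), Lt i h z =
      ∑ z ∈ T.filter (fun z => cst i h z = n),
      (if Adm i (ez i h z) then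
      (X : ℤ[X]) ^ (nf i (ez i h z)) * (1 + X) ^ (Pk i (ez i h z)).card else 0) := by
    refine Finset.sum_congr rfl fun z hz => ?_
    rw [mem_filter] at hz
    have h7 := h2 z hz.1
    exact (lead_eq hgr h7.1 h7.2).symm
  rw [h6]
  exact h3

/-- the consequence used for Gaussian posets: signs cancel -/
theorem sign_sum_of_dvd {i : ℕ} {h : P → ℕ} {n b : ℕ} (T : Finset P)
    (hZ : (1 + X : ℤ[X]) ^ b ∣ Z P i n)
    (hd : (1 + X : ℤ[X]) ^ b ∣ Z P i n - ∑ z ∈ T, Lt i h z)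
    {c0 : ℕ} (hc : c0 < b)
    (hle : ∀ z ∈ T, c0 + nab i z ≤ (lv P i).card + nab (i + h z) z) :
    ∑ z ∈ T.filter (fun z => c0 + nab i z = (lv P i).card + nab (i + h z) z),
      (-1 : ℤ) ^ (nst i h z) = 0 := by
  classical
  have h1 := dvd_sub hZ hd
  rw [sub_sub_cancel] at h1
  have h2 := sum_sign_eq_zero _ _ _ b c0 hc (fun z hz => by
    have := hle z hz
    omega) h1
  have h3 : T.filter (fun z => (lv P i).card + nab (i + h z) z - nab i z = c0) =
      T.filter (fun z => c0 + nab i z = (lv P i).card + nab (i + h z) z) := by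
    refine Finset.filter_congr fun z _ => ?_
    have := nab_le z i
    omega
  rw [h3] at h2
  simp only [pow_add] at h2
  rw [← Finset.mul_sum] at h2
  exact (mul_eq_zero.mp h2).resolve_left (pow_ne_zero _ (by norm_num))

end Pool.Agent.GaussPoset
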