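import Pool.Agent.W_448tw_h76.TwD

/-!
Product formula for constrained window sums.
-/

namespace Pool.Agent.GaussPoset

set_option linter.unusedSectionVars false

open Polynomial Finset

universe u

section SC

variable {α : Type u} [Fintype α] [DecidableEq α]

open Classical in
/-- the sum over the configurations of energy `n` with the property `T` -/
noncomputable def SC (T : (α → ℕ) → Finset α → Prop) (n : ℕ) : ℤ[X] :=
  ∑ F : Finset α, ∑ _e ∈ ((univ : Finset α).piAntidiag n).filter (fun e => T e F),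
    (X : ℤ[X]) ^ F.card

open Classical in
/-- the configurations of energy `n` with the property `T` -/
noncomputable def cfg (T : (α → ℕ) → Finset α → Prop) (n : ℕ) : Finset (Finset α × (α → ℕ)) :=
  ((univ : Finset (Finset α)) ×ˢ ((univ : Finset α).piAntidiag n)).filter (fun x => T x.2 x.1)

lemma mem_cfg {T : (α → ℕ) → Finset α → Prop} {n : ℕ} {x : Finset α × (α → ℕ)} :
    x ∈ cfg T n ↔ ∑ y, x.2 y = n ∧ T x.2 x.1 := by
  classical
  unfold cfg
  rw [mem_filter, mem_product, mem_piAntidiag]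
  constructor
  · rintro ⟨⟨-, h1, -⟩, h2⟩
    exact ⟨h1, h2⟩
  · rintro ⟨h1, h2⟩
    exact ⟨⟨mem_univ _, h1, fun _ _ => mem_univ _⟩, h2⟩

lemma SC_eq_cfg (T : (α → ℕ) → Finset α → Prop) (n : ℕ) :
    SC T n = ∑ x ∈ cfg T n, (X : ℤ[X]) ^ x.1.card := by
  classical
  unfold SC cfg
  rw [Finset.sum_filter, Finset.sum_product]
  refine Finset.sum_congr rfl fun F _ => ?_
  rw [Finset.sum_filter]

lemma SC_congr {T T' : (α → ℕ) → Finset α → Prop} (h : ∀ e F, T e F ↔ T' e F) (n : ℕ) :
    SC T n = SC T' n := by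
  have : T = T' := by
    funext e F
    exact propext (h e F)
  rw [this]

lemma SC_eq_zero {T : (α → ℕ) → Finset α → Prop} {n : ℕ}
    (h : ∀ e F, T e F → ∑ x, e x = n → False) : SC T n = 0 := by
  rw [SC_eq_cfg]
  refine Finset.sum_eq_zero fun x hx => ?_
  rw [mem_cfg] at hx
  exact (h _ _ hx.2 hx.1).elim

/-- product formula for independent parts -/
theorem SC_prod (p : α → Prop) [DecidablePred p] (T : (α → ℕ) → Finset α → Prop)
    (T1 : ({x // p x} → ℕ) → Finset {x // p x} → Prop)
    (T2 : ({x // ¬ p x} → ℕ) → Finset {x // ¬ p x} → Prop)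
    (hT : ∀ e F, T e F ↔ T1 (fun x => e x) (F.subtype p) ∧
      T2 (fun x => e x) (F.subtype (fun x => ¬ p x))) (n : ℕ) :
    SC T n = ∑ ab ∈ antidiagonal n, SC T1 ab.1 * SC T2 ab.2 := by
  classical
  have hR : ∀ ab : ℕ × ℕ, SC T1 ab.1 * SC T2 ab.2 =
      ∑ xy ∈ cfg T1 ab.1 ×ˢ cfg T2 ab.2, (X : ℤ[X]) ^ (xy.1.1.card + xy.2.1.card) := by
    intro ab
    rw [SC_eq_cfg, SC_eq_cfg, Finset.sum_mul_sum, Finset.sum_product]
    refine Finset.sum_congr rfl fun x _ => Finset.sum_congr rfl fun y _ => ?_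
    rw [pow_add]
  rw [Finset.sum_congr rfl (fun ab _ => hR ab), Finset.sum_sigma', SC_eq_cfg]
  refine Finset.sum_bij'
    (fun (x : Finset α × (α → ℕ)) _ => (⟨(∑ y : {x // p x}, x.2 y, ∑ y : {x // ¬ p x}, x.2 y),
      ((x.1.subtype p, fun y => x.2 y), (x.1.subtype (fun y => ¬ p y), fun y => x.2 y))⟩ :
      (_ : ℕ × ℕ) × ((Finset {x // p x} × ({x // p x} → ℕ)) ×
        (Finset {x // ¬ p x} × ({x // ¬ p x} → ℕ)))))
    (fun s _ => (s.2.1.1.map (Function.Embedding.subtype _) ∪
      s.2.2.1.map (Function.Embedding.subtype _),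
      fun y => if h : p y then s.2.1.2 ⟨y, h⟩ else s.2.2.2 ⟨y, h⟩)) ?_ ?_ ?_ ?_ ?_
  · rintro ⟨F, e⟩ hx
    rw [mem_cfg] at hx
    rw [mem_sigma, HasAntidiagonal.mem_antidiagonal, mem_product, mem_cfg, mem_cfg]
    have h1 := (hT e F).mp hx.2
    refine ⟨?_, ⟨rfl, h1.1⟩, ⟨rfl, h1.2⟩⟩
    have h2 := Fintype.sum_subtype_add_sum_subtype p e
    exact h2.trans hx.1
  · rintro ⟨⟨a, b⟩, ⟨F1, e1⟩, ⟨F2, e2⟩⟩ hs
    rw [mem_sigma, HasAntidiagonal.mem_antidiagonal, mem_product, mem_cfg, mem_cfg] at hs
    obtain ⟨h1, ⟨h2, h3⟩, ⟨h4, h5⟩⟩ := hs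
    simp only at h1 h2 h3 h4 h5
    rw [mem_cfg]
    simp only
    constructor
    · rw [← Fintype.sum_subtype_add_sum_subtype p, ← h1, ← h2, ← h4]
      congr 1
      · exact Finset.sum_congr rfl fun y _ => by rw [dif_pos y.2]
      · exact Finset.sum_congr rfl fun y _ => by rw [dif_neg y.2]
    · rw [hT]
      have e1' : (fun x : {x // p x} => if h : p (x : α) then e1 ⟨x, h⟩ else e2 ⟨x, h⟩) = e1 := by
        funext x
        rw [dif_pos x.2]
      have e2' : (fun x : {x // ¬ p x} => if h : p (x : α) then e1 ⟨x, h⟩ else e2 ⟨x, h⟩) = e2 := by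
        funext x
        rw [dif_neg x.2]
      have f1 : (F1.map (Function.Embedding.subtype _) ∪
          F2.map (Function.Embedding.subtype _)).subtype p = F1 := by
        ext x
        rw [mem_subtype, mem_union, mem_map, mem_map]
        constructor
        · rintro (⟨y, hy, hyx⟩ | ⟨y, hy, hyx⟩)
          · have : y = x := Subtype.ext hyx
            rw [← this]; exact hy
          · have h6 : (y : α) = (x : α) := hyx
            exact absurd (h6.symm ▸ x.2 : p (y : α)) y.2
        · intro hx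
          exact Or.inl ⟨x, hx, rfl⟩
      have f2 : (F1.map (Function.Embedding.subtype _) ∪
          F2.map (Function.Embedding.subtype _)).subtype (fun x => ¬ p x) = F2 := by
        ext x
        rw [mem_subtype, mem_union, mem_map, mem_map]
        constructor
        · rintro (⟨y, hy, hyx⟩ | ⟨y, hy, hyx⟩)
          · have h6 : (y : α) = (x : α) := hyx
            exact absurd (h6 ▸ y.2 : p (x : α)) x.2
          · have : y = x := Subtype.ext hyx
            rw [← this]; exact hy
        · intro hx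
          exact Or.inr ⟨x, hx, rfl⟩
      rw [e1', e2', f1, f2]
      exact ⟨h3, h5⟩
  · rintro ⟨F, e⟩ hx
    simp only
    refine Prod.ext ?_ ?_
    · ext x
      simp only [mem_union, mem_map, mem_subtype, Function.Embedding.coe_subtype, Subtype.exists,
        exists_and_left, exists_prop, exists_eq_right_right]
      by_cases h : p x
      · simp [h]
      · simp [h]
    · funext x
      simp only
      split_ifs <;> rfl
  · rintro ⟨⟨a, b⟩, ⟨F1, e1⟩, ⟨F2, e2⟩⟩ hs
    rw [mem_sigma, HasAntidiagonal.mem_antidiagonal, mem_product, mem_cfg, mem_cfg] at hs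
    obtain ⟨h1, ⟨h2, h3⟩, ⟨h4, h5⟩⟩ := hs
    simp only at h1 h2 h3 h4 h5
    have e1' : (fun x : {x // p x} => if h : p (x : α) then e1 ⟨x, h⟩ else e2 ⟨x, h⟩) = e1 := by
      funext x
      rw [dif_pos x.2]
    have e2' : (fun x : {x // ¬ p x} => if h : p (x : α) then e1 ⟨x, h⟩ else e2 ⟨x, h⟩) = e2 := by
      funext x
      rw [dif_neg x.2]
    have f1 : (F1.map (Function.Embedding.subtype _) ∪
        F2.map (Function.Embedding.subtype _)).subtype p = F1 := by
      ext x
      rw [mem_subtype, mem_union, mem_map, mem_map]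
      constructor
      · rintro (⟨y, hy, hyx⟩ | ⟨y, hy, hyx⟩)
        · have : y = x := Subtype.ext hyx
          rw [← this]; exact hy
        · have h6 : (y : α) = (x : α) := hyx
          exact absurd (h6.symm ▸ x.2 : p (y : α)) y.2
      · intro hx
        exact Or.inl ⟨x, hx, rfl⟩
    have f2 : (F1.map (Function.Embedding.subtype _) ∪
        F2.map (Function.Embedding.subtype _)).subtype (fun x => ¬ p x) = F2 := by
      ext x
      rw [mem_subtype, mem_union, mem_map, mem_map]
      constructor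
      · rintro (⟨y, hy, hyx⟩ | ⟨y, hy, hyx⟩)
        · have h6 : (y : α) = (x : α) := hyx
          exact absurd (h6 ▸ y.2 : p (x : α)) x.2
        · have : y = x := Subtype.ext hyx
          rw [← this]; exact hy
      · intro hx
        exact Or.inr ⟨x, hx, rfl⟩
    simp only
    rw [e1', e2', f1, f2, h2, h4]
  · rintro ⟨F, e⟩ hx
    simp only
    congr 1
    rw [card_subtype, card_subtype]
    exact (Finset.card_filter_add_card_filter_not (s := F) p).symm

end SC

end Pool.Agent.GaussPoset
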